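import Mathlib

/-!
# Real powers of the infinite Borwein product: definitions

`sg n` is the sum of the divisors of `n` which are not divisible by `3`, `c d n` is the coefficient
of `q ^ n` in the `d`-th power of `∏ (1 - q ^ (3 k + 1)) (1 - q ^ (3 k + 2))` (by its recursion), and
`L s` is `- log ∏ (1 - q ^ (3 k + 1)) (1 - q ^ (3 k + 2))` at `q = exp (- s)`.
-/

set_option autoImplicit false

namespace Pool.Agent.T6.H43.BW

/-- the sum of the divisors of `n` not divisible by `3` -/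
def sg (n : ℕ) : ℕ := ∑ k ∈ n.divisors.filter (fun k => ¬ 3 ∣ k), k

/-- the coefficient of `q ^ n` in the `d`-th power of the infinite Borwein product -/
noncomputable def c (d : ℝ) : ℕ → ℝ
  | 0 => 1
  | n + 1 => -d / ((n : ℝ) + 1) * ∑ k : Fin (n + 1), (sg ((k : ℕ) + 1) : ℝ) * c d (n - k)

/-- `L s = ∑ sg(m) / m * exp (- m s)` -/
noncomputable def L (s : ℂ) : ℂ :=
  ∑' m : ℕ, (sg (m + 1) : ℂ) / ((m : ℂ) + 1) * Complex.exp (-((m : ℂ) + 1) * s)

/-- the sign condition at `(d, n)` -/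
def Good (d : ℝ) (n : ℕ) : Prop := (n % 3 = 0 → 0 ≤ c d n) ∧ (n % 3 ≠ 0 → c d n ≤ 0)

end Pool.Agent.T6.H43.BW
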