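import Pool.Agent.T6.H43.BW.G3a
import Pool.Agent.T6.H43.BW.G3b

/-!
# The finite check
-/

set_option autoImplicit false

namespace Pool.Agent.T6.H43.BW

open G

theorem fin_check_aux (d : ℝ) (n : ℕ) (h3 : n ≠ 3) (h5 : n ≠ 5)
    (h : (0.225 ≤ d ∧ d ≤ 13 / 50 ∧ n ≤ 565) ∨ (13 / 50 ≤ d ∧ d ≤ 3 / 10 ∧ n ≤ 475) ∨
      (3 / 10 ≤ d ∧ d ≤ 2 / 5 ∧ n ≤ 400) ∨ (2 / 5 ≤ d ∧ d ≤ 1 / 2 ∧ n ≤ 275) ∨
      (1 / 2 ≤ d ∧ d ≤ 7 / 10 ∧ n ≤ 212) ∨ (7 / 10 ≤ d ∧ d ≤ 1 ∧ n ≤ 145) ∨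
      (2 ≤ d ∧ d ≤ 3 ∧ n ≤ 120)) : Good d n := by
  rcases h with ⟨a, b, hn⟩ | ⟨a, b, hn⟩ | ⟨a, b, hn⟩ | ⟨a, b, hn⟩ | ⟨a, b, hn⟩ | ⟨a, b, hn⟩ |
    ⟨a, b, hn⟩
  · exact inst (by norm_num) (by norm_num) g245
      (by rw [abs_le]; constructor <;> norm_num <;> linarith) hn h3 h5
  · exact inst (by norm_num) (by norm_num) g280
      (by rw [abs_le]; constructor <;> norm_num <;> linarith) hn h3 h5
  · rcases le_total d 0.35 with hd | hd
    · exact inst (by norm_num) (by norm_num) g325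
        (by rw [abs_le]; constructor <;> norm_num at hd ⊢ <;> linarith) hn h3 h5
    · exact inst (by norm_num) (by norm_num) g375
        (by rw [abs_le]; constructor <;> norm_num at hd ⊢ <;> linarith) hn h3 h5
  · rcases le_total d 0.45 with hd | hd
    · exact inst (by norm_num) (by norm_num) g425
        (by rw [abs_le]; constructor <;> norm_num at hd ⊢ <;> linarith) hn h3 h5
    · exact inst (by norm_num) (by norm_num) g475
        (by rw [abs_le]; constructor <;> norm_num at hd ⊢ <;> linarith) hn h3 h5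
  · rcases le_total d 0.6 with hd | hd
    · exact inst (by norm_num) (by norm_num) g550
        (by rw [abs_le]; constructor <;> norm_num at hd ⊢ <;> linarith) hn h3 h5
    · exact inst (by norm_num) (by norm_num) g650
        (by rw [abs_le]; constructor <;> norm_num at hd ⊢ <;> linarith) hn h3 h5
  · rcases le_total d 0.85 with hd | hd
    · exact inst (by norm_num) (by norm_num) g775
        (by rw [abs_le]; constructor <;> norm_num at hd ⊢ <;> linarith) hn h3 h5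
    · exact inst (by norm_num) (by norm_num) g925
        (by rw [abs_le]; constructor <;> norm_num at hd ⊢ <;> linarith) hn h3 h5
  · rcases le_total d 2.2 with hd | hd
    · exact inst (by norm_num) (by norm_num) g2100
        (by rw [abs_le]; constructor <;> norm_num at hd ⊢ <;> linarith) hn h3 h5
    rcases le_total d 2.42 with hd' | hd'
    · exact inst (by norm_num) (by norm_num) g2310
        (by rw [abs_le]; constructor <;> norm_num at hd hd' ⊢ <;> linarith) hn h3 h5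
    rcases le_total d 2.64 with hd | hd
    · exact inst (by norm_num) (by norm_num) g2530
        (by rw [abs_le]; constructor <;> norm_num at hd hd' ⊢ <;> linarith) hn h3 h5
    rcases le_total d 2.86 with hd' | hd'
    · exact inst (by norm_num) (by norm_num) g2750
        (by rw [abs_le]; constructor <;> norm_num at hd hd' ⊢ <;> linarith) hn h3 h5
    · exact inst1 (by norm_num) (by norm_num) g3000
        (by rw [abs_le]; constructor <;> norm_num at hd hd' ⊢ <;> linarith) (by norm_num; linarith)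
        hn h3 h5

/-- the finite check -/
theorem fin_check (d : ℝ) (n : ℕ)
    (h : ((9 - Real.sqrt 73) / 2 ≤ d ∧ d ≤ 13 / 50 ∧ n ≤ 565) ∨
      (13 / 50 ≤ d ∧ d ≤ 3 / 10 ∧ n ≤ 475) ∨
      (3 / 10 ≤ d ∧ d ≤ 2 / 5 ∧ n ≤ 400) ∨ (2 / 5 ≤ d ∧ d ≤ 1 / 2 ∧ n ≤ 275) ∨
      (1 / 2 ≤ d ∧ d ≤ 7 / 10 ∧ n ≤ 212) ∨ (7 / 10 ≤ d ∧ d ≤ 1 ∧ n ≤ 145) ∨
      (2 ≤ d ∧ d ≤ 3 ∧ n ≤ 120)) : Good d n := by
  have hs : Real.sqrt 73 ≤ 8.55 := by
    rw [Real.sqrt_le_left (by norm_num)]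
    norm_num
  have hs2 : 8.5 ≤ Real.sqrt 73 := by
    apply Real.le_sqrt_of_sq_le
    norm_num
  have hsq : Real.sqrt 73 ^ 2 = 73 := Real.sq_sqrt (by norm_num)
  have hlow : (9 - Real.sqrt 73) / 2 ≤ d := by
    rcases h with ⟨a, _⟩ | ⟨a, _⟩ | ⟨a, _⟩ | ⟨a, _⟩ | ⟨a, _⟩ | ⟨a, _⟩ | ⟨a, _⟩ <;> linarith
  have hhigh : d ≤ 3 := by
    rcases h with ⟨_, a, _⟩ | ⟨_, a, _⟩ | ⟨_, a, _⟩ | ⟨_, a, _⟩ | ⟨_, a, _⟩ | ⟨_, a, _⟩ |
      ⟨_, a, _⟩ <;> linarith
  have hd0 : 0.225 ≤ d := by norm_num at hs ⊢; linarith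
  by_cases h3 : n = 3
  · subst h3
    apply good_three (by linarith)
    nlinarith [mul_nonneg (sub_nonneg.2 hlow)
      (show (0:ℝ) ≤ (9 + Real.sqrt 73) / 2 - d by linarith)]
  by_cases h5 : n = 5
  · subst h5
    apply good_five
    rcases h with ⟨_, a, _⟩ | ⟨_, a, _⟩ | ⟨_, a, _⟩ | ⟨_, a, _⟩ | ⟨_, a, _⟩ | ⟨_, a, _⟩ |
      ⟨a, b, _⟩
    all_goals first
      | exact Or.inr ⟨a, b⟩
      | exact Or.inl ⟨by linarith, by linarith⟩
  refine fin_check_aux d n h3 h5 ?_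
  rcases h with ⟨_, a, b⟩ | h
  · exact Or.inl ⟨hd0, a, b⟩
  · exact Or.inr h

end Pool.Agent.T6.H43.BW
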