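import Pool.Agent.T6.H43.BW.Defs

/-!
# The first coefficients
-/

set_option autoImplicit false

namespace Pool.Agent.T6.H43.BW

theorem sg_one : sg 1 = 1 := by decide
theorem sg_two : sg 2 = 3 := by decide
theorem sg_three : sg 3 = 1 := by decide
theorem sg_four : sg 4 = 7 := by decide
theorem sg_five : sg 5 = 6 := by decide

theorem c_0 (d : ℝ) : c d 0 = 1 := by rw [c]

theorem c_1 (d : ℝ) : c d 1 = -d := by
  rw [c, Fin.sum_univ_succ]
  simp only [Fin.sum_univ_zero, Fin.val_zero, zero_add, Nat.sub_zero, sg_one, c_0]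
  norm_num

theorem c_2 (d : ℝ) : c d 2 = d * (d - 3) / 2 := by
  rw [c, Fin.sum_univ_succ, Fin.sum_univ_succ]
  simp only [Fin.sum_univ_zero, Fin.val_zero, Fin.val_succ, zero_add, Nat.sub_zero, sg_one,
    show 1 + 1 = 2 from rfl, sg_two, show 1 - 1 = 0 from rfl, c_0, c_1]
  norm_num
  ring

theorem c_3 (d : ℝ) : c d 3 = -(d * (d ^ 2 - 9 * d + 2)) / 6 := by
  rw [c, Fin.sum_univ_succ, Fin.sum_univ_succ, Fin.sum_univ_succ]
  simp only [Fin.sum_univ_zero, Fin.val_zero, Fin.val_succ, zero_add, Nat.sub_zero, sg_one,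
    show 1 + 1 = 2 from rfl, show 2 + 1 = 3 from rfl, sg_two, sg_three, show 2 - 1 = 1 from rfl,
    show 2 - 2 = 0 from rfl, c_0, c_1, c_2]
  norm_num
  ring

theorem c_4 (d : ℝ) : c d 4 = d * (d ^ 3 - 18 * d ^ 2 + 35 * d - 42) / 24 := by
  rw [c, Fin.sum_univ_succ, Fin.sum_univ_succ, Fin.sum_univ_succ, Fin.sum_univ_succ]
  simp only [Fin.sum_univ_zero, Fin.val_zero, Fin.val_succ, zero_add, Nat.sub_zero, sg_one,
    show 1 + 1 = 2 from rfl, show 2 + 1 = 3 from rfl, show 3 + 1 = 4 from rfl, sg_two, sg_three,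
    sg_four, show 3 - 1 = 2 from rfl, show 3 - 2 = 1 from rfl, show 3 - 3 = 0 from rfl,
    c_0, c_1, c_2, c_3]
  norm_num
  ring

theorem c_5 (d : ℝ) : c d 5 = -(d * (d - 1) * (d - 2) * (d - 3) * (d - 24)) / 120 := by
  rw [c, Fin.sum_univ_succ, Fin.sum_univ_succ, Fin.sum_univ_succ, Fin.sum_univ_succ,
    Fin.sum_univ_succ]
  simp only [Fin.sum_univ_zero, Fin.val_zero, Fin.val_succ, zero_add, Nat.sub_zero, sg_one,
    show 1 + 1 = 2 from rfl, show 2 + 1 = 3 from rfl, show 3 + 1 = 4 from rfl,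
    show 4 + 1 = 5 from rfl, sg_two, sg_three, sg_four, sg_five, show 4 - 1 = 3 from rfl,
    show 4 - 2 = 2 from rfl, show 4 - 3 = 1 from rfl, show 4 - 4 = 0 from rfl,
    c_0, c_1, c_2, c_3, c_4]
  norm_num
  ring

theorem d0_pos : 0.2 ≤ (9 - √73) / 2 := by
  have : √73 ≤ 8.6 := by
    rw [Real.sqrt_le_left (by norm_num)]; norm_num
  linarith

/-- the sign condition for `n ≤ 5` -/
theorem good_small (d : ℝ) (n : ℕ) (hn : n ≤ 5)
    (h : ((9 - √73) / 2 ≤ d ∧ d ≤ 1) ∨ (2 ≤ d ∧ d ≤ 3)) : Good d n := by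
  have hd : 0 ≤ d := by
    rcases h with h | h
    · linarith [d0_pos, h.1]
    · linarith [h.1]
  have hd3 : d ≤ 3 := by
    rcases h with h | h <;> linarith [h.2]
  interval_cases n
  · exact ⟨fun _ => by rw [c_0]; norm_num, fun h => by omega⟩
  · exact ⟨fun h => by omega, fun _ => by rw [c_1]; linarith⟩
  · exact ⟨fun h => by omega, fun _ => by rw [c_2]; nlinarith⟩
  · refine ⟨fun _ => ?_, fun h => by omega⟩
    rw [c_3]
    have h1 : d ^ 2 - 9 * d + 2 ≤ 0 := by
      rcases h with h | h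
      · -- `d` lies between the two roots
        have h73 : √73 * √73 = 73 := Real.mul_self_sqrt (by norm_num)
        have h2 : (d - (9 - √73) / 2) * (d - (9 + √73) / 2) ≤ 0 := by
          refine mul_nonpos_of_nonneg_of_nonpos (by linarith [h.1]) ?_
          have := Real.sqrt_nonneg 73
          linarith [h.2]
        nlinarith
      · nlinarith [h.1, h.2]
    have : 0 ≤ d * -(d ^ 2 - 9 * d + 2) := mul_nonneg hd (by linarith)
    linarith
  · refine ⟨fun h => by omega, fun _ => ?_⟩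
    rw [c_4]
    have h1 : d ^ 3 - 18 * d ^ 2 + 35 * d - 42 ≤ 0 := by
      nlinarith [mul_nonneg hd hd, mul_nonneg (mul_nonneg hd hd) (sub_nonneg.2 hd3), sq_nonneg (d - 1)]
    have : d * (d ^ 3 - 18 * d ^ 2 + 35 * d - 42) ≤ 0 := mul_nonpos_of_nonneg_of_nonpos hd h1
    linarith
  · refine ⟨fun h => by omega, fun _ => ?_⟩
    rw [c_5]
    have h1 : 0 ≤ (d - 1) * (d - 2) := by
      rcases h with h | h
      · nlinarith [h.2]
      · nlinarith [h.1]
    have h2 : 0 ≤ (3 - d) * (24 - d) := mul_nonneg (by linarith) (by linarith)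
    have h3 := mul_nonneg (mul_nonneg hd h1) h2
    have h4 : d * (d - 1) * (d - 2) * (d - 3) * (d - 24) =
        d * ((d - 1) * (d - 2)) * ((3 - d) * (24 - d)) := by ring
    rw [h4]
    linarith

end Pool.Agent.T6.H43.BW
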