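import Mathlib

/-!
# The arc integral
-/

set_option autoImplicit false

namespace Pool.Agent.T6.H43.BW

open Complex MeasureTheory Set
open scoped Real Interval

/-- the integrand of the main arc, scaled -/
noncomputable def hh (X : ℝ) (v : ℂ) : ℂ := cexp (X * (1 / v + v / 4))

/-- the arc integral -/
noncomputable def Iarc (X : ℝ) : ℝ := ∫ θ in (-(π / 3))..(π / 3), Real.cos θ * Real.exp (X * Real.cos θ)

lemma hh_arc (X θ : ℝ) : hh X (2 * cexp (θ * I)) = ((Real.exp (X * Real.cos θ) : ℝ) : ℂ) := by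
  unfold hh
  rw [Complex.ofReal_exp]
  congr 1
  push_cast
  rw [Complex.cos, Complex.exp_mul_I, Complex.cos, Complex.sin]
  have h : cexp (θ * I) ≠ 0 := Complex.exp_ne_zero _
  have h2 : cexp (-(θ:ℂ) * I) = (cexp (θ * I))⁻¹ := by
    rw [neg_mul, Complex.exp_neg]
  rw [h2]
  have e : (cexp (θ * I) + (cexp (θ * I))⁻¹) / 2 +
      ((cexp (θ * I))⁻¹ - cexp (θ * I)) * I / 2 * I = cexp (θ * I) := by
    linear_combination (1 / 2 * ((cexp (θ * I))⁻¹ - cexp (θ * I))) * I_sq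
  rw [e]
  field_simp
  ring

lemma mem_ball_seg {ψ : ℝ} (h : |ψ| ≤ √3) : (1 + (ψ : ℂ) * I) ∈ Metric.ball (3 : ℂ) (29 / 10) := by
  rw [Metric.mem_ball, Complex.dist_eq, Complex.norm_def, Real.sqrt_lt' (by norm_num)]
  have e : normSq (1 + (ψ : ℂ) * I - 3) = 4 + ψ ^ 2 := by
    rw [Complex.normSq_apply]; simp; ring
  rw [e]
  have : ψ ^ 2 ≤ 3 := by
    have := sq_le_sq' (abs_le.1 h).1 (abs_le.1 h).2
    rwa [Real.sq_sqrt (by norm_num)] at this
  nlinarith

lemma cos_ge_half {θ : ℝ} (h : |θ| ≤ π / 3) : 1 / 2 ≤ Real.cos θ := by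
  rw [← Real.cos_abs, ← Real.cos_pi_div_three]
  exact Real.cos_le_cos_of_nonneg_of_le_pi (abs_nonneg _) (by linarith [Real.pi_pos]) h

lemma mem_ball_arc {θ : ℝ} (h : |θ| ≤ π / 3) :
    (2 * cexp (θ * I)) ∈ Metric.ball (3 : ℂ) (29 / 10) := by
  rw [Metric.mem_ball, Complex.dist_eq, Complex.norm_def, Real.sqrt_lt' (by norm_num)]
  have e : normSq (2 * cexp (θ * I) - 3) = 13 - 12 * Real.cos θ := by
    have e1 : (2 * cexp (θ * I) - 3) = ((2 * Real.cos θ - 3 : ℝ) : ℂ) + ((2 * Real.sin θ : ℝ) : ℂ) * I := by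
      rw [Complex.exp_mul_I, ← Complex.ofReal_cos, ← Complex.ofReal_sin]
      push_cast
      ring
    rw [e1, Complex.normSq_add_mul_I]
    have := Real.sin_sq_add_cos_sq θ
    nlinarith
  rw [e]
  have := cos_ge_half h
  nlinarith

lemma ball_re {z : ℂ} (h : z ∈ Metric.ball (3 : ℂ) (29 / 10)) : z ≠ 0 := by
  rintro rfl
  rw [Metric.mem_ball, dist_comm, dist_zero_right] at h
  norm_num at h

theorem seg_eq_arc (X : ℝ) : ∫ ψ in (-√3)..√3, hh X (1 + ψ * I) =
    ∫ θ in (-(π / 3))..(π / 3), 2 * cexp (θ * I) * ((Real.exp (X * Real.cos θ) : ℝ) : ℂ) := by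
  have hd : DifferentiableOn ℂ (hh X) (Metric.ball (3 : ℂ) (29 / 10)) := by
    intro z hz
    have hz0 := ball_re hz
    unfold hh
    refine DifferentiableAt.differentiableWithinAt ?_
    fun_prop (disch := assumption)
  obtain ⟨F, hF⟩ := hd.isExactOn_ball
  have hs3 : (0 : ℝ) ≤ √3 := Real.sqrt_nonneg _
  have hpi := Real.pi_pos
  have h1 : ∫ ψ in (-√3)..√3, hh X (1 + ψ * I) * I = F (1 + (√3 : ℝ) * I) - F (1 + ((-√3 : ℝ) : ℂ) * I) := by
    refine intervalIntegral.integral_eq_sub_of_hasDerivAt (f := fun ψ : ℝ => F (1 + ψ * I)) ?_ ?_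
    · intro ψ hψ
      rw [Set.uIcc_of_le (by linarith)] at hψ
      have hm := mem_ball_seg (abs_le.2 ⟨hψ.1, hψ.2⟩)
      have h2 : HasDerivAt (fun y : ℝ => (1 + (y : ℂ) * I)) I ψ := by
        have := ((Complex.ofRealCLM.hasDerivAt (x := ψ)).mul_const I).const_add (1 : ℂ)
        simpa using this
      exact (hF _ hm).comp ψ h2
    · refine ContinuousOn.intervalIntegrable ?_
      rw [Set.uIcc_of_le (by linarith)]
      refine ContinuousOn.mul ?_ continuousOn_const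
      refine hd.continuousOn.comp (by fun_prop) ?_
      intro ψ hψ
      exact mem_ball_seg (abs_le.2 ⟨hψ.1, hψ.2⟩)
  have h2 : ∫ θ in (-(π / 3))..(π / 3), hh X (2 * cexp (θ * I)) * (2 * (cexp (θ * I) * I)) =
      F (2 * cexp ((π / 3 : ℝ) * I)) - F (2 * cexp ((-(π / 3) : ℝ) * I)) := by
    refine intervalIntegral.integral_eq_sub_of_hasDerivAt
      (f := fun θ : ℝ => F (2 * cexp (θ * I))) ?_ ?_
    · intro θ hθ
      rw [Set.uIcc_of_le (by linarith)] at hθ
      have hm := mem_ball_arc (abs_le.2 ⟨hθ.1, hθ.2⟩)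
      have h2 : HasDerivAt (fun y : ℝ => (2 * cexp ((y : ℂ) * I))) (2 * (cexp (θ * I) * I)) θ := by
        have h3 := ((Complex.ofRealCLM.hasDerivAt (x := θ)).mul_const I).cexp.const_mul 2
        simpa using h3
      exact (hF _ hm).comp θ h2
    · refine ContinuousOn.intervalIntegrable ?_
      rw [Set.uIcc_of_le (by linarith)]
      refine ContinuousOn.mul ?_ (by fun_prop)
      refine hd.continuousOn.comp (by fun_prop) ?_
      intro θ hθ
      exact mem_ball_arc (abs_le.2 ⟨hθ.1, hθ.2⟩)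
  have e1 : 2 * cexp ((π / 3 : ℝ) * I) = 1 + (√3 : ℝ) * I := by
    rw [Complex.exp_mul_I, ← Complex.ofReal_cos, ← Complex.ofReal_sin, Real.cos_pi_div_three,
      Real.sin_pi_div_three]
    push_cast
    ring
  have e2 : 2 * cexp ((-(π / 3) : ℝ) * I) = 1 + ((-√3 : ℝ) : ℂ) * I := by
    rw [Complex.exp_mul_I, ← Complex.ofReal_cos, ← Complex.ofReal_sin, Real.cos_neg, Real.sin_neg,
      Real.cos_pi_div_three, Real.sin_pi_div_three]
    push_cast
    ring
  rw [e1, e2, ← h1] at h2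
  have h3 : ∫ θ in (-(π / 3))..(π / 3), hh X (2 * cexp (θ * I)) * (2 * (cexp (θ * I) * I)) =
      (∫ θ in (-(π / 3))..(π / 3), 2 * cexp (θ * I) * ((Real.exp (X * Real.cos θ) : ℝ) : ℂ)) * I := by
    rw [← intervalIntegral.integral_mul_const]
    refine intervalIntegral.integral_congr fun θ _ => ?_
    simp only [hh_arc]
    ring
  rw [h3, intervalIntegral.integral_mul_const] at h2
  exact (mul_right_cancel₀ I_ne_zero h2).symm

theorem arc_real (X : ℝ) :
    ∫ θ in (-(π / 3))..(π / 3), 2 * cexp (θ * I) * ((Real.exp (X * Real.cos θ) : ℝ) : ℂ) =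
      ((2 * Iarc X : ℝ) : ℂ) := by
  have h1 : ∀ θ : ℝ, 2 * cexp (θ * I) * ((Real.exp (X * Real.cos θ) : ℝ) : ℂ) =
      ((2 * (Real.cos θ * Real.exp (X * Real.cos θ)) : ℝ) : ℂ) +
        ((2 * (Real.sin θ * Real.exp (X * Real.cos θ)) : ℝ) : ℂ) * I := by
    intro θ
    rw [Complex.exp_mul_I, ← Complex.ofReal_cos, ← Complex.ofReal_sin]
    push_cast
    ring
  rw [intervalIntegral.integral_congr (fun θ _ => h1 θ)]
  have c1 : Continuous fun θ : ℝ => ((2 * (Real.cos θ * Real.exp (X * Real.cos θ)) : ℝ) : ℂ) := by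
    fun_prop
  have c2 : Continuous fun θ : ℝ => ((2 * (Real.sin θ * Real.exp (X * Real.cos θ)) : ℝ) : ℂ) * I := by
    fun_prop
  rw [intervalIntegral.integral_add (c1.intervalIntegrable _ _) (c2.intervalIntegrable _ _),
    intervalIntegral.integral_mul_const]
  have h2 : ∫ θ in (-(π / 3))..(π / 3), ((2 * (Real.cos θ * Real.exp (X * Real.cos θ)) : ℝ) : ℂ) =
      ((∫ θ in (-(π / 3))..(π / 3), (2 * (Real.cos θ * Real.exp (X * Real.cos θ)) : ℝ) : ℝ) : ℂ) :=
    intervalIntegral.integral_ofReal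
  have h3 : ∫ θ in (-(π / 3))..(π / 3), ((2 * (Real.sin θ * Real.exp (X * Real.cos θ)) : ℝ) : ℂ) =
      ((∫ θ in (-(π / 3))..(π / 3), (2 * (Real.sin θ * Real.exp (X * Real.cos θ)) : ℝ) : ℝ) : ℂ) :=
    intervalIntegral.integral_ofReal
  have h4 : ∫ θ in (-(π / 3))..(π / 3), (2 * (Real.sin θ * Real.exp (X * Real.cos θ)) : ℝ) = 0 := by
    have h5 := intervalIntegral.integral_comp_neg (a := -(π / 3)) (b := π / 3)
      (fun θ : ℝ => (2 * (Real.sin θ * Real.exp (X * Real.cos θ)) : ℝ))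
    rw [neg_neg] at h5
    have h6 : ∀ θ : ℝ, (2 * (Real.sin (-θ) * Real.exp (X * Real.cos (-θ))) : ℝ) =
        -(2 * (Real.sin θ * Real.exp (X * Real.cos θ))) := by
      intro θ
      rw [Real.sin_neg, Real.cos_neg]
      ring
    rw [intervalIntegral.integral_congr (fun θ _ => h6 θ), intervalIntegral.integral_neg] at h5
    linarith
  rw [h2, h3, h4, intervalIntegral.integral_const_mul]
  unfold Iarc
  push_cast
  ring

theorem seg_integral (X : ℝ) : ∫ ψ in (-√3)..√3, hh X (1 + ψ * I) = ((2 * Iarc X : ℝ) : ℂ) := by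
  rw [seg_eq_arc, arc_real]

end Pool.Agent.T6.H43.BW
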