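import Pool.Agent.T6.H43.BW.Defs
import Pool.Agent.T6.H86.DA.Bnd

/-!
# The minor arcs: `L s = g s - g (3 s)` and bounds for `g`
-/

set_option autoImplicit false

namespace Pool.Agent.T6.H43.BW.MA

open Complex
open scoped Real ArithmeticFunction.sigma
open Pool.Agent.T6.H86.DA

lemma sg_add {n : ℕ} (hn : n ≠ 0) :
    sg n + (if 3 ∣ n then 3 * σ 1 (n / 3) else 0) = σ 1 n := by
  rw [ArithmeticFunction.sigma_one_apply n, sg,
    ← Finset.sum_filter_add_sum_filter_not n.divisors (fun k => ¬ 3 ∣ k)]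
  congr 1
  simp only [not_not]
  split_ifs with h
  · obtain ⟨m, rfl⟩ := h
    have hm : m ≠ 0 := by rintro rfl; simp at hn
    rw [Nat.mul_div_cancel_left _ (by norm_num), ArithmeticFunction.sigma_one_apply, Finset.mul_sum]
    refine Finset.sum_bij (fun d _ => 3 * d) ?_ ?_ ?_ ?_
    · intro d hd
      rw [Nat.mem_divisors] at hd
      rw [Finset.mem_filter, Nat.mem_divisors]
      exact ⟨⟨Nat.mul_dvd_mul_left 3 hd.1, hn⟩, Nat.dvd_mul_right 3 d⟩
    · intro a _ b _ hab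
      exact Nat.eq_of_mul_eq_mul_left (by norm_num) hab
    · intro b hb
      rw [Finset.mem_filter, Nat.mem_divisors] at hb
      obtain ⟨⟨h1, _⟩, ⟨k, rfl⟩⟩ := hb
      exact ⟨k, Nat.mem_divisors.2 ⟨Nat.dvd_of_mul_dvd_mul_left (by norm_num) h1, hm⟩, rfl⟩
    · intro a _
      rfl
  · symm
    apply Finset.sum_eq_zero
    intro k hk
    rw [Finset.mem_filter, Nat.mem_divisors] at hk
    exact absurd (hk.2.trans hk.1.1) h

theorem L_eq' {s : ℂ} (hs : 0 < s.re) : L s = g s - g (3 * s) := by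
  have h3 : 0 < (3 * s).re := by
    have : (3 * s).re = 3 * s.re := by simp
    rw [this]; positivity
  have hg := (summable_g hs).hasSum
  have hg3 := (summable_g h3).hasSum
  let f : ℕ → ℂ := fun m => if 3 ∣ m + 1 then
    ((3 * σ 1 ((m + 1) / 3) : ℕ) : ℂ) / ((m : ℂ) + 1) * exp (-((m : ℂ) + 1) * s) else 0
  let i : ℕ → ℕ := fun k => 3 * k + 2
  have hi : Function.Injective i := by
    intro a b hab
    simp only [i] at hab
    omega
  have hf : HasSum f (g (3 * s)) := by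
    rw [← hi.hasSum_iff]
    · have : f ∘ i = fun m : ℕ => ((σ 1 (m + 1) : ℕ) : ℂ) / ((m : ℂ) + 1) *
          exp (-((m : ℂ) + 1) * (3 * s)) := by
        funext m
        have e1 : 3 * m + 2 + 1 = 3 * (m + 1) := by ring
        simp only [f, i, Function.comp, e1]
        rw [if_pos (Nat.dvd_mul_right 3 (m + 1)), Nat.mul_div_cancel_left _ (by norm_num)]
        have e2 : ((3 * m + 2 : ℕ) : ℂ) + 1 = 3 * ((m : ℂ) + 1) := by push_cast; ring
        rw [e2]
        congr 1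
        · push_cast
          rw [mul_div_mul_left _ _ (by norm_num : (3 : ℂ) ≠ 0)]
        · congr 1; ring
      rw [this]
      exact hg3
    · intro m hm
      simp only [f]
      rw [if_neg]
      intro h
      apply hm
      refine ⟨(m + 1) / 3 - 1, ?_⟩
      simp only [i]
      omega
  have hd := hg.sub hf
  have e : (fun m : ℕ => ((σ 1 (m + 1) : ℕ) : ℂ) / ((m : ℂ) + 1) *
      exp (-((m : ℂ) + 1) * s) - f m) =
      fun m : ℕ => (sg (m + 1) : ℂ) / ((m : ℂ) + 1) * Complex.exp (-((m : ℂ) + 1) * s) := by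
    funext m
    have h := sg_add (Nat.succ_ne_zero m)
    simp only [Nat.succ_eq_add_one] at h
    simp only [f]
    rw [← h]
    split_ifs with h'
    · push_cast; ring
    · push_cast; ring
  rw [e] at hd
  exact hd.tsum_eq

lemma exp_terms {s : ℂ} {q : ℝ} (hq : Real.exp (-s.re) ≤ q) (m : ℕ) :
    ‖exp (-((m : ℂ) + 1) * s)‖ ≤ q ^ (m + 1) := by
  rw [norm_exp_term]
  have : Real.exp (-((m : ℝ) + 1) * s.re) = Real.exp (-s.re) ^ (m + 1) := by
    rw [← Real.exp_nat_mul]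
    congr 1
    push_cast; ring
  rw [this]
  gcongr

/-- a sharp bound for `g` -/
lemma norm_g_le {s : ℂ} {q : ℝ} (hs : 0 < s.re) (hq : Real.exp (-s.re) ≤ q) (hq1 : q < 1) :
    ‖g s‖ ≤ q + 3 / 2 * q ^ 2 + 4 / 3 * q ^ 3 + 7 / 4 * q ^ 4 +
      q ^ 5 * (q / (1 - q) ^ 2 + 5 / (1 - q)) := by
  have hq0 : 0 < q := (Real.exp_pos _).trans_le hq
  have hsum := (summable_g hs).sum_add_tsum_nat_add 4
  have hg : g s = _ := hsum.symm
  rw [hg]
  refine (norm_add_le _ _).trans ?_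
  refine add_le_add ?_ ?_
  · rw [Finset.sum_range_succ, Finset.sum_range_succ, Finset.sum_range_succ, Finset.sum_range_one]
    have s1 : σ 1 1 = 1 := by decide
    have s2 : σ 1 2 = 3 := by decide
    have s3 : σ 1 3 = 4 := by decide
    have s4 : σ 1 4 = 7 := by decide
    refine (norm_add_le _ _).trans (add_le_add ((norm_add_le _ _).trans (add_le_add
      ((norm_add_le _ _).trans (add_le_add ?_ ?_)) ?_)) ?_)
    · rw [norm_mul]
      have := exp_terms hq 0
      rw [show (0 : ℕ) + 1 = 1 by norm_num, s1]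
      simpa using this
    · rw [norm_mul]
      have := exp_terms hq 1
      rw [show (1 : ℕ) + 1 = 2 by norm_num, s2] at *
      have e : ‖((3 : ℕ) : ℂ) / (((1 : ℕ) : ℂ) + 1)‖ = 3 / 2 := by
        rw [show ((3 : ℕ) : ℂ) / (((1 : ℕ) : ℂ) + 1) = ((3 / 2 : ℝ) : ℂ) by push_cast; norm_num,
          Complex.norm_real]
        norm_num
      rw [e]
      gcongr
    · rw [norm_mul]
      have := exp_terms hq 2
      rw [show (2 : ℕ) + 1 = 3 by norm_num, s3] at *
      have e : ‖((4 : ℕ) : ℂ) / (((2 : ℕ) : ℂ) + 1)‖ = 4 / 3 := by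
        rw [show ((4 : ℕ) : ℂ) / (((2 : ℕ) : ℂ) + 1) = ((4 / 3 : ℝ) : ℂ) by push_cast; norm_num,
          Complex.norm_real]
        norm_num
      rw [e]
      gcongr
    · rw [norm_mul]
      have := exp_terms hq 3
      rw [show (3 : ℕ) + 1 = 4 by norm_num, s4] at *
      have e : ‖((7 : ℕ) : ℂ) / (((3 : ℕ) : ℂ) + 1)‖ = 7 / 4 := by
        rw [show ((7 : ℕ) : ℂ) / (((3 : ℕ) : ℂ) + 1) = ((7 / 4 : ℝ) : ℂ) by push_cast; norm_num,
          Complex.norm_real]
        norm_num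
      rw [e]
      gcongr
  · have hn : ‖q‖ < 1 := by rw [Real.norm_eq_abs, abs_of_pos hq0]; exact hq1
    have h1 : HasSum (fun m : ℕ => (m : ℝ) * q ^ m) (q / (1 - q) ^ 2) :=
      hasSum_coe_mul_geometric_of_norm_lt_one hn
    have h2 : HasSum (fun m : ℕ => q ^ m) ((1 - q)⁻¹) := hasSum_geometric_of_norm_lt_one hn
    have h3 := (h1.add (h2.mul_left 5)).mul_left (q ^ 5)
    rw [← div_eq_mul_inv] at h3
    refine tsum_of_norm_bounded h3 fun m => ?_
    rw [norm_mul]
    have e1 := exp_terms hq (m + 4)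
    have e2 : ‖((σ 1 (m + 4 + 1) : ℕ) : ℂ) / (((m + 4 : ℕ) : ℂ) + 1)‖ ≤ (m : ℝ) + 5 := by
      have h1 : ‖(((m + 4 : ℕ) : ℂ) + 1)‖ = (m : ℝ) + 5 := by
        have : (((m + 4 : ℕ) : ℂ) + 1) = ((m + 5 : ℕ) : ℂ) := by push_cast; ring
        rw [this, Complex.norm_natCast]; push_cast; ring
      rw [norm_div, h1, Complex.norm_natCast]
      have h2 : ((σ 1 (m + 4 + 1) : ℕ) : ℝ) ≤ ((m : ℝ) + 5) ^ 2 := by
        have := sigma_le (m + 4 + 1)
        exact_mod_cast this
      rw [div_le_iff₀ (by positivity)]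
      nlinarith
    calc _ ≤ ((m : ℝ) + 5) * q ^ (m + 4 + 1) := by gcongr
      _ = _ := by ring

lemma sqrt3_bounds : 1.7320 < Real.sqrt 3 ∧ Real.sqrt 3 < 1.7321 := by
  constructor
  · rw [Real.lt_sqrt (by norm_num)]; norm_num
  · rw [Real.sqrt_lt' (by norm_num)]; norm_num

lemma exp_big : (6.0607 : ℝ) ≤ Real.exp 1.8136 := by
  have h1 := Real.exp_one_gt_d9
  have h2 := Real.sum_le_exp_of_nonneg (x := 0.8136) (by norm_num) 5
  rw [show (1.8136 : ℝ) = 1 + 0.8136 by norm_num, Real.exp_add]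
  have h3 : (2.2525 : ℝ) ≤ Real.exp 0.8136 := by
    refine le_trans ?_ h2
    norm_num [Finset.sum_range_succ, Nat.factorial]
  nlinarith

/-- `g` at height `2 π y / 3` with `y ≥ √3 / 2` -/
lemma norm_g_le_a {s : ℂ} (hs : 1.8136 ≤ s.re) : ‖g s‖ ≤ 0.214 := by
  have h1 : Real.exp (-s.re) ≤ 0.165 := by
    have h := exp_big
    have h2 : Real.exp (-s.re) ≤ Real.exp (-1.8136) := Real.exp_le_exp.2 (by linarith)
    refine h2.trans ?_
    rw [Real.exp_neg]
    rw [inv_le_comm₀ (Real.exp_pos _) (by norm_num)]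
    refine le_trans ?_ h
    norm_num
  have h2 := norm_g_le (by linarith : (0 : ℝ) < s.re) h1 (by norm_num)
  refine h2.trans ?_
  norm_num

/-- `g` at height `2 π y` with `y ≥ √3 / 2` -/
lemma norm_g_le_b {s : ℂ} (hs : 5.4408 ≤ s.re) : ‖g s‖ ≤ 0.0047 := by
  have h1 : Real.exp (-s.re) ≤ 0.165 ^ 3 := by
    have h := exp_big
    have h2 : Real.exp (-s.re) ≤ Real.exp (-1.8136) ^ 3 := by
      rw [← Real.exp_nat_mul]
      exact Real.exp_le_exp.2 (by push_cast; linarith)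
    refine h2.trans ?_
    have h3 : Real.exp (-1.8136) ≤ 0.165 := by
      rw [Real.exp_neg]
      rw [inv_le_comm₀ (Real.exp_pos _) (by norm_num)]
      refine le_trans ?_ h
      norm_num
    gcongr
  have h2 := norm_g_le (by linarith : (0 : ℝ) < s.re) h1 (by norm_num)
  refine h2.trans ?_
  norm_num

end Pool.Agent.T6.H43.BW.MA
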