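import Pool.Agent.T6.H43.BW.B1
import Pool.Agent.T6.H43.BW.B2

/-!
# The minor arcs
-/

set_option autoImplicit false

namespace Pool.Agent.T6.H43.BW

open Complex ModularGroup
open UpperHalfPlane hiding I
open scoped Real MatrixGroups Modular
open Pool.Agent.T6.H86.DA (g W g_modular W_re W_re_pos ne_zero_of_re)

namespace MA

lemma neg_re_L {de ph : ℝ} (h0 : 0 < de) :
    -(L (de + ph * I)).re = 1 / 2 * (ell (I * (de + ph * I) / (2 * π)) -
      ell (3 * (I * (de + ph * I) / (2 * π)))) + 1 / 4 * Real.log 3 - de / 12 := by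
  have hpi : (π : ℂ) ≠ 0 := by exact_mod_cast Real.pi_ne_zero
  have hs : 0 < ((de : ℂ) + ph * I).re := by simpa using h0
  rw [L_eq' hs, Complex.sub_re]
  unfold ell
  have him : (I * ((de : ℂ) + ph * I) / (2 * π)).im = de / (2 * π) := by
    have h : I * ((de : ℂ) + ph * I) / (2 * π) = ((1 / (2 * π) : ℝ) : ℂ) * (I * (de + ph * I)) := by
      push_cast; field_simp
    rw [h, Complex.im_ofReal_mul]
    simp
    ring
  have him3 : (3 * (I * ((de : ℂ) + ph * I) / (2 * π))).im = 3 * (de / (2 * π)) := by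
    rw [← him]; simp
  have e1 : -2 * π * I * (I * ((de : ℂ) + ph * I) / (2 * π)) = (de : ℂ) + ph * I := by
    field_simp
    rw [show (Complex.I ^ 2 : ℂ) = -1 from Complex.I_sq]
    ring
  have e2 : -2 * π * I * (3 * (I * ((de : ℂ) + ph * I) / (2 * π))) = 3 * ((de : ℂ) + ph * I) := by
    rw [show -2 * π * I * (3 * (I * ((de : ℂ) + ph * I) / (2 * π))) =
      3 * (-2 * π * I * (I * ((de : ℂ) + ph * I) / (2 * π))) by ring, e1]
  rw [e1, e2, him, him3, Real.log_mul (by norm_num) (by positivity)]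
  have : π ≠ 0 := Real.pi_ne_zero
  field_simp
  ring

lemma log3_le : Real.log 3 ≤ 1.0987 := by
  rw [Real.log_le_iff_le_exp (by norm_num)]
  have h1 := Real.exp_one_gt_d9
  have h2 := Real.add_one_le_exp (0.0987 : ℝ)
  have h3 := Real.quadratic_le_exp_of_nonneg (x := (0.0987 : ℝ)) (by norm_num)
  rw [show (1.0987 : ℝ) = 1 + 0.0987 by norm_num, Real.exp_add]
  have h4 := Real.sum_le_exp_of_nonneg (x := 0.0987) (by norm_num) 5
  have h5 : (1.10373 : ℝ) ≤ Real.exp 0.0987 := by
    refine le_trans ?_ h4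
    norm_num [Finset.sum_range_succ, Nat.factorial]
  nlinarith

lemma case_third {z : ℂ} (hz : 0.866 ≤ z.im) {w : ℂ} (hw : w.im = z.im / 3) :
    1 / 2 * (ell w - ell z) + 1 / 4 * Real.log 3 ≤ 0.22 + π * z.im / 18 := by
  have hz0 : 0 < z.im := by linarith
  have hp := Real.pi_gt_d6
  have h1 : ‖g (-2 * π * I * w)‖ ≤ 0.214 := by
    apply norm_g_le_a
    rw [re_s, hw]
    nlinarith
  have h2 : ‖g (-2 * π * I * z)‖ ≤ 0.0047 := by
    apply norm_g_le_b
    rw [re_s]
    nlinarith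
  have h3 := (abs_le.1 (Complex.abs_re_le_norm (g (-2 * π * I * w)))).1
  have h4 := (abs_le.1 (Complex.abs_re_le_norm (g (-2 * π * I * z)))).2
  unfold ell
  rw [hw, Real.log_div hz0.ne' (by norm_num)]
  linarith

lemma case_mul {z : ℂ} (hz : 0.866 ≤ z.im) :
    1 / 2 * (ell (3 * z) - ell z) + 1 / 4 * Real.log 3 ≤ 0.22 + π * z.im / 18 := by
  have hz0 : 0 < z.im := by linarith
  have hp := Real.pi_gt_d6
  have him : (3 * z).im = 3 * z.im := by simp
  have h1 : ‖g (-2 * π * I * (3 * z))‖ ≤ 0.0047 := by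
    apply norm_g_le_b
    rw [re_s, him]
    nlinarith
  have h2 : ‖g (-2 * π * I * z)‖ ≤ 0.0047 := by
    apply norm_g_le_b
    rw [re_s]
    nlinarith
  have h3 := (abs_le.1 (Complex.abs_re_le_norm (g (-2 * π * I * (3 * z))))).1
  have h4 := (abs_le.1 (Complex.abs_re_le_norm (g (-2 * π * I * z)))).2
  have h5 := log3_le
  unfold ell
  rw [him, Real.log_mul (by norm_num) hz0.ne']
  nlinarith

lemma main_of_fd {z : ℍ} (hz : z ∈ 𝒟) {w : ℂ} (hw : ell w ≤ M (z : ℂ)) :
    1 / 2 * (ell w - ell (z : ℂ)) + 1 / 4 * Real.log 3 ≤ 0.22 + π * z.im / 18 := by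
  have h3 := three_le_four_mul_im_sq_of_mem_fd hz
  have him : 0.866 ≤ (z : ℂ).im := by
    have := z.im_pos
    rw [UpperHalfPlane.coe_im]
    by_contra hcon
    push Not at hcon
    nlinarith
  have i0 : ((z : ℂ) / 3).im = (z : ℂ).im / 3 := by simp
  have i1 : (((z : ℂ) + 1) / 3).im = (z : ℂ).im / 3 := by simp
  have i2 : (((z : ℂ) + 2) / 3).im = (z : ℂ).im / 3 := by simp
  have c0 := case_third him i0
  have c1 := case_third him i1
  have c2 := case_third him i2
  have c3 := case_mul him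
  rw [UpperHalfPlane.coe_im] at c0 c1 c2 c3
  unfold M at hw
  rcases le_max_iff.1 hw with h | h <;> rcases le_max_iff.1 h with h | h <;> linarith

/-- the geometric statement -/
lemma im_bound {de ph : ℝ} (h0 : 0 < de) (h1 : de ≤ 1 / 2)
    (h : ∀ m : ℤ, Real.sqrt 3 * de ≤ |ph - 2 * π * m / 3|) {z : ℍ}
    (hz : (z : ℂ) = 3 * (I * (de + ph * I) / (2 * π))) (γ : SL(2, ℤ)) :
    (γ • z).im ≤ π / (6 * de) := by
  have hpi := Real.pi_gt_d6
  have hpi0 := Real.pi_pos
  have him : z.im = 3 * de / (2 * π) := by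
    rw [← UpperHalfPlane.coe_im, hz]
    have h : 3 * (I * ((de : ℂ) + ph * I) / (2 * π)) =
        ((3 / (2 * π) : ℝ) : ℂ) * (I * (de + ph * I)) := by
      push_cast; field_simp
    rw [h, Complex.im_ofReal_mul]
    simp
    ring
  have hre : z.re = -(3 * ph / (2 * π)) := by
    rw [← UpperHalfPlane.coe_re, hz]
    have h : 3 * (I * ((de : ℂ) + ph * I) / (2 * π)) =
        ((3 / (2 * π) : ℝ) : ℂ) * (I * (de + ph * I)) := by
      push_cast; field_simp
    rw [h, Complex.re_ofReal_mul]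
    simp
    ring
  have hden : (UpperHalfPlane.denom γ z) = (γ 1 0 : ℂ) * z + (γ 1 1 : ℂ) := by
    rw [ModularGroup.denom_apply]
  rw [ModularGroup.im_smul_eq_div_normSq, hden]
  have hI0 : 0 < z.im := z.im_pos
  have key : 4 * z.im ^ 2 ≤ normSq ((γ 1 0 : ℂ) * z + (γ 1 1 : ℂ)) := by
    have hn : normSq ((γ 1 0 : ℂ) * z + (γ 1 1 : ℂ)) =
        ((γ 1 0 : ℝ) * z.re + (γ 1 1 : ℝ)) ^ 2 + ((γ 1 0 : ℝ) * z.im) ^ 2 := by
      rw [Complex.normSq_apply]
      simp
      ring
    rw [hn]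
    rcases eq_or_ne (γ 1 0) 0 with hc | hc
    · have hdet := γ.det_coe
      rw [Matrix.det_fin_two] at hdet
      have hc' : (γ : Matrix (Fin 2) (Fin 2) ℤ) 1 0 = 0 := hc
      rw [hc'] at hdet
      have hd : (γ 1 1) ^ 2 = 1 := by
        have h2 : (γ : Matrix (Fin 2) (Fin 2) ℤ) 0 0 * (γ : Matrix (Fin 2) (Fin 2) ℤ) 1 1 = 1 := by
          linarith
        have h3 := Int.isUnit_iff.1 (IsUnit.of_mul_eq_one_right _ h2)
        rcases h3 with h3 | h3 <;>
        · have h3' : γ 1 1 = _ := h3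
          rw [h3']; norm_num
      have hd' : ((γ 1 1 : ℤ) : ℝ) ^ 2 = 1 := by exact_mod_cast hd
      rw [hc]
      push_cast
      rw [zero_mul, zero_add, hd', zero_mul, him]
      have h4 : 3 * de / (2 * π) ≤ 1 / 4 := by
        rw [div_le_iff₀ (by positivity)]
        nlinarith
      have h5 : 0 ≤ 3 * de / (2 * π) := by positivity
      nlinarith
    · rcases le_or_gt 2 |γ 1 0| with h2 | h2
      · have h3 : (2 : ℝ) ≤ |((γ 1 0 : ℤ) : ℝ)| := by exact_mod_cast h2
        have h4 : (4 : ℝ) ≤ ((γ 1 0 : ℤ) : ℝ) ^ 2 := by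
          rw [← sq_abs]; nlinarith
        rw [mul_pow]
        nlinarith [sq_nonneg ((γ 1 0 : ℝ) * z.re + (γ 1 1 : ℝ)), sq_nonneg z.im]
      · have h3 : |γ 1 0| = 1 := by
          have := abs_pos.2 hc
          omega
        have h4 : ((γ 1 0 : ℤ) : ℝ) ^ 2 = 1 := by
          have : (γ 1 0) ^ 2 = 1 := by rw [← sq_abs, h3]; norm_num
          exact_mod_cast this
        -- the integer `m`
        have h5 := h (γ 1 0 * γ 1 1)
        have h6 : ((γ 1 0 : ℝ) * z.re + (γ 1 1 : ℝ)) ^ 2 =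
            (3 / (2 * π)) ^ 2 * (ph - 2 * π * ((γ 1 0 * γ 1 1 : ℤ) : ℝ) / 3) ^ 2 := by
          rw [hre]
          push_cast
          have e : ((γ 1 0 : ℝ) * -(3 * ph / (2 * π)) + (γ 1 1 : ℝ)) =
              -(3 / (2 * π)) * (γ 1 0 : ℝ) * ph + (γ 1 1 : ℝ) := by ring
          have e2 : (3 / (2 * π)) ^ 2 * (ph - 2 * π * ((γ 1 0 : ℝ) * (γ 1 1 : ℝ)) / 3) ^ 2 =
              (3 / (2 * π) * ph - (γ 1 0 : ℝ) * (γ 1 1 : ℝ)) ^ 2 := by
            rw [← mul_pow]
            congr 1
            field_simp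
          rw [e, e2]
          linear_combination ((3 / (2 * π)) ^ 2 * ph ^ 2 - (γ 1 1 : ℝ) ^ 2) * h4
        rw [h6, mul_pow, h4, one_mul]
        have h7 : 3 * de ^ 2 ≤ (ph - 2 * π * ((γ 1 0 * γ 1 1 : ℤ) : ℝ) / 3) ^ 2 := by
          rw [← sq_abs (ph - _)]
          have h8 : (Real.sqrt 3 * de) ^ 2 = 3 * de ^ 2 := by
            rw [mul_pow, Real.sq_sqrt (by norm_num)]
          rw [← h8]
          have : 0 ≤ Real.sqrt 3 * de := by positivity
          gcongr
        have h9 : 3 * z.im ^ 2 = (3 / (2 * π)) ^ 2 * (3 * de ^ 2) := by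
          rw [him]; ring
        have h10 : (3 / (2 * π)) ^ 2 * (3 * de ^ 2) ≤
            (3 / (2 * π)) ^ 2 * (ph - 2 * π * ((γ 1 0 * γ 1 1 : ℤ) : ℝ) / 3) ^ 2 := by
          gcongr
        linarith
  have hpos : 0 < normSq ((γ 1 0 : ℂ) * z + (γ 1 1 : ℂ)) := by
    have : 0 < 4 * z.im ^ 2 := by positivity
    linarith
  rw [div_le_div_iff₀ hpos (by positivity)]
  have e : z.im * (6 * de) = π * (4 * z.im ^ 2) := by
    rw [him]; field_simp; ring
  rw [e]
  gcongr

/-- the arc around `0` -/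
lemma near_zero {de ph : ℝ} (h0 : 0 < de) (h1 : de ≤ 1 / 2) (h : |ph| < Real.sqrt 3 * de) :
    -(L (de + ph * I)).re ≤ 0.22 + π ^ 2 / (108 * de) - de / 12 := by
  have hpi := Real.pi_gt_d6
  have hpi0 := Real.pi_pos
  have hpiC : (π : ℂ) ≠ 0 := by exact_mod_cast Real.pi_ne_zero
  set s : ℂ := (de : ℂ) + ph * I with hsdef
  have hre : s.re = de := by simp [hsdef]
  have him : s.im = ph := by simp [hsdef]
  have hs : 0 < s.re := by rw [hre]; exact h0
  have hs3 : 0 < (3 * s).re := by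
    have : (3 * s).re = 3 * s.re := by simp
    rw [this]; positivity
  have hsn : s ≠ 0 := by
    intro hh; rw [hh] at hs; simp at hs
  have hN : normSq s = de ^ 2 + ph ^ 2 := by
    rw [Complex.normSq_apply, hre, him]; ring
  have hN0 : 0 < normSq s := Complex.normSq_pos.2 hsn
  have hN4 : normSq s ≤ 4 * de ^ 2 := by
    rw [hN]
    have h2 : ph ^ 2 ≤ (Real.sqrt 3 * de) ^ 2 := by
      rw [← sq_abs ph]
      gcongr
    rw [mul_pow, Real.sq_sqrt (by norm_num)] at h2
    linarith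
  have hN3 : normSq (3 * s) = 9 * normSq s := by
    rw [Complex.normSq_mul]
    congr 1
    rw [show (3 : ℂ) = ((3 : ℝ) : ℂ) by push_cast; rfl, Complex.normSq_ofReal]; norm_num
  have hde : π ^ 2 / (3 * de) ≥ 6.5 := by
    rw [ge_iff_le, le_div_iff₀ (by positivity)]
    nlinarith
  have hW : 5.4408 ≤ (W s).re := by
    rw [W_re, hre]
    have : π ^ 2 / de ≤ 4 * π ^ 2 * de / normSq s := by
      rw [div_le_div_iff₀ h0 hN0]
      nlinarith [mul_le_mul_of_nonneg_left hN4 (sq_nonneg π)]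
    have h2 : π ^ 2 / (3 * de) ≤ π ^ 2 / de := by
      apply div_le_div_of_nonneg_left (by positivity) h0
      linarith
    linarith
  have hW3 : 5.4408 ≤ (W (3 * s)).re := by
    rw [W_re, hN3]
    have e : (3 * s).re = 3 * de := by rw [← hre]; simp
    rw [e]
    have : π ^ 2 / (3 * de) ≤ 4 * π ^ 2 * (3 * de) / (9 * normSq s) := by
      rw [div_le_div_iff₀ (by positivity) (by positivity)]
      nlinarith [mul_le_mul_of_nonneg_left hN4 (sq_nonneg π)]
    linarith
  have b1 := norm_g_le_b hW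
  have b2 := norm_g_le_b hW3
  have b3 := (abs_le.1 (Complex.abs_re_le_norm (g (W s)))).1
  have b4 := (abs_le.1 (Complex.abs_re_le_norm (g (W (3 * s))))).2
  have m1 := congrArg Complex.re (g_modular hs)
  have m3 := congrArg Complex.re (g_modular hs3)
  have l1 : (1 / 2 * Complex.log s).re = 1 / 2 * Real.log ‖s‖ := by
    rw [show (1 / 2 : ℂ) = ((1 / 2 : ℝ) : ℂ) by push_cast; ring, Complex.re_ofReal_mul,
      Complex.log_re]
  have l3 : (1 / 2 * Complex.log (3 * s)).re = 1 / 2 * (Real.log 3 + Real.log ‖s‖) := by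
    rw [show (1 / 2 : ℂ) = ((1 / 2 : ℝ) : ℂ) by push_cast; ring, Complex.re_ofReal_mul,
      Complex.log_re, norm_mul, Real.log_mul]
    · simp
    · simp
    · exact norm_ne_zero_iff.2 hsn
  have p1 : ((π : ℂ) ^ 2 / (6 * s)).re = π ^ 2 / 6 * (de / normSq s) := by
    rw [show (π : ℂ) ^ 2 / (6 * s) = ((π ^ 2 / 6 : ℝ) : ℂ) * s⁻¹ by push_cast; field_simp,
      Complex.re_ofReal_mul, Complex.inv_re, hre]
  have p3 : ((π : ℂ) ^ 2 / (6 * (3 * s))).re = π ^ 2 / 18 * (de / normSq s) := by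
    rw [show (π : ℂ) ^ 2 / (6 * (3 * s)) = ((π ^ 2 / 18 : ℝ) : ℂ) * s⁻¹ by
      push_cast; field_simp; norm_num,
      Complex.re_ofReal_mul, Complex.inv_re, hre]
  have q1 : (s / 24).re = de / 24 := by
    rw [← hre, show s / 24 = ((1 / 24 : ℝ) : ℂ) * s by push_cast; ring, Complex.re_ofReal_mul]
    ring
  have q3 : (3 * s / 24).re = de / 8 := by
    rw [← hre, show 3 * s / 24 = ((1 / 8 : ℝ) : ℂ) * s by push_cast; ring, Complex.re_ofReal_mul]
    ring
  rw [Complex.sub_re, Complex.add_re, Complex.sub_re, Complex.add_re, l1, p1, q1] at m1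
  rw [Complex.sub_re, Complex.add_re, Complex.sub_re, Complex.add_re, l3, p3, q3] at m3
  rw [L_eq' hs, Complex.sub_re, m1, m3]
  have h5 := log3_le
  have h6 : 1 / (4 * de) ≤ de / normSq s := by
    rw [div_le_div_iff₀ (by positivity) hN0]
    nlinarith
  have h7 : π ^ 2 / 9 * (1 / (4 * de)) ≤ π ^ 2 / 9 * (de / normSq s) := by gcongr
  have e8 : π ^ 2 / 9 * (1 / (4 * de)) = 1 / 12 * (π ^ 2 / (3 * de)) := by
    field_simp; ring
  have e9 : π ^ 2 / (108 * de) = 1 / 36 * (π ^ 2 / (3 * de)) := by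
    field_simp; ring
  rw [e9]
  rw [e8] at h7
  linarith

end MA

open MA in
/-- Module B: the minor arcs. -/
theorem minor {de ph : ℝ} (h0 : 0 < de) (h1 : de ≤ 1/2) (h2 : |ph| ≤ π)
    (h3 : Real.sqrt 3 * de ≤ abs (|ph| - 2*π/3)) :
    -(L (de + ph * I)).re ≤ 0.22 + π^2/(108*de) - de/12 := by
  rcases lt_or_ge |ph| (Real.sqrt 3 * de) with h | h
  · exact near_zero h0 h1 h
  have hpi := Real.pi_gt_d6
  have hpi0 := Real.pi_pos
  have hs3 := sqrt3_bounds
  have hall : ∀ m : ℤ, Real.sqrt 3 * de ≤ |ph - 2 * π * m / 3| := by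
    intro m
    have hb := abs_le.1 h2
    have h4 : Real.sqrt 3 * de ≤ 0.9 := by nlinarith [hs3.1, hs3.2]
    rcases lt_trichotomy m 0 with hm | hm | hm
    · rcases eq_or_ne m (-1) with rfl | hm1
      · refine h3.trans ?_
        push_cast
        rw [abs_le]
        constructor
        · have := neg_abs_le (ph - 2 * π * -1 / 3)
          rcases le_total 0 ph with hp | hp
          · rw [abs_of_nonneg hp]
            have := le_abs_self (ph - 2 * π * -1 / 3)
            linarith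
          · rw [abs_of_nonpos hp]
            have := le_abs_self (ph - 2 * π * -1 / 3)
            linarith
        · rcases le_total 0 ph with hp | hp
          · rw [abs_of_nonneg hp]
            have := le_abs_self (ph - 2 * π * -1 / 3)
            linarith
          · rw [abs_of_nonpos hp]
            have := neg_abs_le (ph - 2 * π * -1 / 3)
            linarith
      · have hm2 : m ≤ -2 := by omega
        have hm2' : (m : ℝ) ≤ -2 := by exact_mod_cast hm2
        have := le_abs_self (ph - 2 * π * m / 3)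
        nlinarith
    · rw [hm]; simpa using h
    · rcases eq_or_ne m 1 with rfl | hm1
      · refine h3.trans ?_
        push_cast
        rw [abs_le]
        constructor
        · rcases le_total 0 ph with hp | hp
          · rw [abs_of_nonneg hp]
            have := neg_abs_le (ph - 2 * π * 1 / 3)
            linarith
          · rw [abs_of_nonpos hp]
            have := neg_abs_le (ph - 2 * π * 1 / 3)
            linarith
        · rcases le_total 0 ph with hp | hp
          · rw [abs_of_nonneg hp]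
            have := le_abs_self (ph - 2 * π * 1 / 3)
            linarith
          · rw [abs_of_nonpos hp]
            have := neg_abs_le (ph - 2 * π * 1 / 3)
            linarith
      · have hm2 : 2 ≤ m := by omega
        have hm2' : (2 : ℝ) ≤ (m : ℝ) := by exact_mod_cast hm2
        have := neg_abs_le (ph - 2 * π * m / 3)
        nlinarith
  rw [neg_re_L h0]
  have hzim : 0 < (3 * (I * ((de : ℂ) + ph * I) / (2 * π))).im := by
    have h : 3 * (I * ((de : ℂ) + ph * I) / (2 * π)) =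
        ((3 / (2 * π) : ℝ) : ℂ) * (I * (de + ph * I)) := by
      have hpi : (π : ℂ) ≠ 0 := by exact_mod_cast Real.pi_ne_zero
      push_cast; field_simp
    rw [h, Complex.im_ofReal_mul]
    simp
    positivity
  let z : ℍ := ⟨3 * (I * ((de : ℂ) + ph * I) / (2 * π)), hzim⟩
  have hzc : (z : ℂ) = 3 * (I * ((de : ℂ) + ph * I) / (2 * π)) := rfl
  obtain ⟨γ, hγ⟩ := ModularGroup.exists_smul_mem_fd z
  have hw : ell (I * ((de : ℂ) + ph * I) / (2 * π)) ≤ M ((γ • z : ℍ) : ℂ) := by
    rw [M_smul, hzc]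
    unfold M
    rw [show 3 * (I * ((de : ℂ) + ph * I) / (2 * π)) / 3 = I * ((de : ℂ) + ph * I) / (2 * π) by ring]
    exact (le_max_right _ _).trans (le_max_left _ _)
  have hm := main_of_fd hγ hw
  rw [ell_smul, hzc] at hm
  have hb := im_bound h0 h1 hall hzc γ
  have hb2 : π * (γ • z).im / 18 ≤ π * (π / (6 * de)) / 18 := by gcongr
  have e : π * (π / (6 * de)) / 18 = π ^ 2 / (108 * de) := by
    field_simp; ring
  rw [e] at hb2
  linarith

end Pool.Agent.T6.H43.BW
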