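import Pool.Agent.T6.H43.BW.Split
import Pool.Agent.T6.H43.BW.B

/-!
# The error bounds
-/

set_option autoImplicit false

namespace Pool.Agent.T6.H43.BW

open Complex MeasureTheory Set
open scoped Real Interval ComplexConjugate

theorem norm_exp_sub_exp_le {a b : ℂ} {M : ℝ} (ha : a.re ≤ M) (hb : b.re ≤ M) :
    ‖cexp a - cexp b‖ ≤ ‖a - b‖ * Real.exp M := by
  have hconv : Convex ℝ {z : ℂ | z.re ≤ M} := convex_halfSpace_re_le M
  have h := hconv.norm_image_sub_le_of_norm_hasDerivWithin_le (𝕜 := ℂ) (f := cexp) (f' := cexp)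
    (C := Real.exp M) (fun z _ => (Complex.hasDerivAt_exp z).hasDerivWithinAt)
    (fun z hz => by
      rw [Complex.norm_exp]
      exact Real.exp_le_exp.2 hz) hb ha
  rw [mul_comm] at h
  exact h

/-- the exponent of the error -/
noncomputable def ex (d : ℝ) (n : ℕ) (δ : ℝ) : ℝ :=
  d * (0.22 + π ^ 2 / (108 * δ) - δ / 12) + n * δ

theorem fI_re (d : ℝ) (n : ℕ) (δ φ : ℝ) :
    (-(d : ℂ) * L (δ + φ * I) + n * (δ + φ * I)).re = -(d * (L (δ + φ * I)).re) + n * δ := by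
  simp

theorem minor_re {d : ℝ} (hd : 0 ≤ d) (n : ℕ) {δ φ : ℝ} (h0 : 0 < δ) (h1 : δ ≤ 1 / 10)
    (h2 : |φ| ≤ π) (h3 : √3 * δ ≤ |(|φ| - 2 * π / 3)|) :
    (-(d : ℂ) * L (δ + φ * I) + n * (δ + φ * I)).re ≤ ex d n δ := by
  rw [fI_re, ex]
  have := minor h0 (by linarith) h2 h3
  nlinarith

theorem norm_fI_le {d : ℝ} (hd : 0 ≤ d) (n : ℕ) {δ φ : ℝ} (h0 : 0 < δ) (h1 : δ ≤ 1 / 10)
    (h2 : |φ| ≤ π) (h3 : √3 * δ ≤ |(|φ| - 2 * π / 3)|) :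
    ‖fI d n δ φ‖ ≤ Real.exp (ex d n δ) := by
  rw [fI, Complex.norm_exp]
  exact Real.exp_le_exp.2 (minor_re hd n h0 h1 h2 h3)

theorem ex_mono {d : ℝ} (hd : d ≤ 3) (n : ℕ) {δ : ℝ} (h0 : 0 < δ) (h1 : δ ≤ 1 / 10) :
    ex d n δ ≤ ex 3 n δ := by
  unfold ex
  have : 0 ≤ 0.22 + π ^ 2 / (108 * δ) - δ / 12 := by
    have : 0 < π ^ 2 / (108 * δ) := by positivity
    linarith
  nlinarith

theorem norm_fI_sub_le {d : ℝ} (hd : 0 ≤ d) (hd3 : d ≤ 3) (n : ℕ) {δ φ : ℝ} (h0 : 0 < δ)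
    (h1 : δ ≤ 1 / 10) (h2 : |φ| ≤ π) (h3 : √3 * δ ≤ |(|φ| - 2 * π / 3)|) :
    ‖fI d n δ φ - fI 3 n δ φ‖ ≤ (3 - d) * (π ^ 2 / (9 * δ) * Real.exp (ex 3 n δ)) := by
  have h4 := norm_exp_sub_exp_le ((minor_re hd n h0 h1 h2 h3).trans (ex_mono hd3 n h0 h1))
    (minor_re (by norm_num : (0 : ℝ) ≤ 3) n h0 h1 h2 h3)
  rw [fI, fI]
  refine h4.trans ?_
  have e : (-(d : ℂ) * L (δ + φ * I) + n * (δ + φ * I) -
      (-((3 : ℝ) : ℂ) * L (δ + φ * I) + n * (δ + φ * I))) =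
        ((3 - d : ℝ) : ℂ) * L (δ + φ * I) := by
    push_cast; ring
  rw [e, norm_mul, Complex.norm_real, Real.norm_eq_abs, abs_of_nonneg (by linarith), mul_assoc]
  refine mul_le_mul_of_nonneg_left ?_ (by linarith)
  refine mul_le_mul_of_nonneg_right ?_ (Real.exp_pos _).le
  have h5 := norm_L_le (s := (δ : ℂ) + φ * I) (by rw [re_path]; exact h0)
  rw [re_path] at h5
  exact h5.trans (L_real_le h0 (by linarith))

/-! ### the main arc -/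

theorem normSq_path (δ ψ : ℝ) : normSq ((δ : ℂ) + ψ * I) = δ ^ 2 + ψ ^ 2 := by
  rw [Complex.normSq_add_mul_I]

theorem normSq_le {δ ψ : ℝ} (h0 : 0 < δ) (h : |ψ| ≤ √3 * δ) :
    normSq ((δ : ℂ) + ψ * I) ≤ 4 * δ ^ 2 := by
  rw [normSq_path]
  have h1 := sq_le_sq' (abs_le.1 h).1 (abs_le.1 h).2
  rw [mul_pow, Real.sq_sqrt (by norm_num)] at h1
  linarith

/-- `u = δ / |w|²` -/
noncomputable def uu (δ ψ : ℝ) : ℝ := δ / (δ ^ 2 + ψ ^ 2)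

theorem uu_ge {δ ψ : ℝ} (h0 : 0 < δ) (h : |ψ| ≤ √3 * δ) : 1 / (4 * δ) ≤ uu δ ψ := by
  have h1 := normSq_le h0 h
  rw [normSq_path] at h1
  rw [uu, div_le_div_iff₀ (by positivity) (by positivity)]
  nlinarith

theorem EE_re (d : ℝ) (n : ℕ) (δ ψ : ℝ) :
    (EE d n (δ + ψ * I)).re = π ^ 2 * d / 27 * uu δ ψ + (n - d / 12) * δ := by
  have e : EE d n (δ + ψ * I) = ((2 * π * n / 3 + π * d / 18 : ℝ) : ℂ) * I +
      ((π ^ 2 * d / 27 : ℝ) : ℂ) * (δ + ψ * I)⁻¹ + ((n - d / 12 : ℝ) : ℂ) * (δ + ψ * I) := by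
    rw [EE, div_eq_mul_inv (_ : ℂ) ((δ : ℂ) + ψ * I)]
    push_cast
    ring
  rw [e, Complex.add_re, Complex.add_re, Complex.re_ofReal_mul, Complex.re_ofReal_mul,
    Complex.re_ofReal_mul, Complex.inv_re, normSq_path, re_path, uu]
  simp

theorem vv_path_re (δ ψ : ℝ) : (vv (δ + ψ * I)).re = 4 * π ^ 2 / 9 * uu δ ψ := by
  rw [vv_re, normSq_path, re_path, uu]
  ring

theorem rho_small {δ ψ : ℝ} (h0 : 0 < δ) (h1 : δ ≤ 1 / 10) (h : |ψ| ≤ √3 * δ) :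
    Real.exp (-(4 * π ^ 2 / 9 * uu δ ψ)) ≤ 1 / 1000 := by
  have h2 := uu_ge h0 h
  have h3 : (5 / 2 : ℝ) ≤ 1 / (4 * δ) := by
    rw [le_div_iff₀ (by positivity)]; linarith
  have h4 : (7 : ℝ) ≤ 4 * π ^ 2 / 9 * uu δ ψ := by
    have h9 : (9 : ℝ) ≤ π ^ 2 := by nlinarith [Real.pi_gt_three]
    have h10 : (4 : ℝ) * (5 / 2) ≤ 4 * π ^ 2 / 9 * uu δ ψ :=
      mul_le_mul (by linarith) (h3.trans h2) (by norm_num) (by positivity)
    linarith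
  have h5 : Real.exp (-(4 * π ^ 2 / 9 * uu δ ψ)) ≤ Real.exp (-7) :=
    Real.exp_le_exp.2 (by linarith)
  refine h5.trans ?_
  rw [Real.exp_neg, inv_le_comm₀ (Real.exp_pos _) (by norm_num)]
  have h8 : (2.7 : ℝ) ≤ Real.exp 1 := by linarith [Real.exp_one_gt_d9]
  have h9 : Real.exp 7 = (Real.exp 1) ^ 7 := by
    rw [← Real.exp_nat_mul]; norm_num
  rw [h9]
  have h11 : (2.7 : ℝ) ^ 7 ≤ Real.exp 1 ^ 7 := pow_le_pow_left₀ (by norm_num) h8 7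
  norm_num at h11 ⊢
  linarith

theorem norm_Lst_le {δ ψ : ℝ} (h0 : 0 < δ) (h1 : δ ≤ 1 / 10) (h : |ψ| ≤ √3 * δ) :
    ‖Lst (δ + ψ * I)‖ ≤ 1.01 * Real.exp (-(4 * π ^ 2 / 9 * uu δ ψ)) := by
  have hu : 0 < uu δ ψ := lt_of_lt_of_le (by positivity) (uu_ge h0 h)
  have hre : (vv (δ + ψ * I) - 2 * π * I / 3).re = 4 * π ^ 2 / 9 * uu δ ψ := by
    rw [re_sub_shift, vv_path_re]
  have h2 := norm_L_le' (s := vv (δ + ψ * I) - 2 * π * I / 3) (by rw [hre]; positivity)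
  rw [hre] at h2
  refine (show ‖Lst (δ + ψ * I)‖ ≤ _ from h2).trans ?_
  have h3 := rho_small h0 h1 h
  set ρ := Real.exp (-(4 * π ^ 2 / 9 * uu δ ψ)) with hρ
  have hρ0 : 0 < ρ := Real.exp_pos _
  rw [div_le_iff₀ (by nlinarith)]
  have : 1 ≤ 1.01 * (1 - ρ) ^ 2 := by nlinarith
  nlinarith

theorem norm_corr_le {d : ℝ} (hd : 0 ≤ d) (hd3 : d ≤ 3) {δ ψ : ℝ} (h0 : 0 < δ) (h1 : δ ≤ 1 / 10)
    (h : |ψ| ≤ √3 * δ) :
    ‖cexp (-(d : ℂ) * Lst (δ + ψ * I)) - 1‖ ≤ 6.06 * Real.exp (-(4 * π ^ 2 / 9 * uu δ ψ)) := by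
  have h2 := norm_Lst_le h0 h1 h
  have h3 := rho_small h0 h1 h
  have hρ0 := Real.exp_pos (-(4 * π ^ 2 / 9 * uu δ ψ))
  have h4 : ‖-(d : ℂ) * Lst (δ + ψ * I)‖ ≤ 3 * (1.01 * Real.exp (-(4 * π ^ 2 / 9 * uu δ ψ))) := by
    rw [norm_mul, norm_neg, Complex.norm_real, Real.norm_eq_abs, abs_of_nonneg hd]
    exact mul_le_mul hd3 h2 (norm_nonneg _) (by norm_num)
  refine (Complex.norm_exp_sub_one_le (h4.trans (by linarith))).trans ?_
  linarith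

theorem gap_exp {d : ℝ} (hd3 : d ≤ 3) {δ ψ : ℝ} (h0 : 0 < δ) (h : |ψ| ≤ √3 * δ) :
    Real.exp (π ^ 2 * d / 27 * uu δ ψ) * Real.exp (-(4 * π ^ 2 / 9 * uu δ ψ)) ≤
      Real.exp (-(π ^ 2 / (12 * δ))) := by
  rw [← Real.exp_add]
  refine Real.exp_le_exp.2 ?_
  have h2 := uu_ge h0 h
  have hu : 0 < uu δ ψ := lt_of_lt_of_le (by positivity) h2
  have hpi : 0 < π ^ 2 := by positivity
  have h3 : π ^ 2 * d / 27 * uu δ ψ ≤ π ^ 2 * 3 / 27 * uu δ ψ := by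
    refine mul_le_mul_of_nonneg_right ?_ hu.le
    nlinarith
  have h4 : π ^ 2 / (12 * δ) = π ^ 2 / 3 * (1 / (4 * δ)) := by
    field_simp
    norm_num
  have h5 : π ^ 2 / 3 * (1 / (4 * δ)) ≤ π ^ 2 / 3 * uu δ ψ :=
    mul_le_mul_of_nonneg_left h2 (by positivity)
  rw [h4]
  linarith

theorem gap_small {δ : ℝ} (h0 : 0 < δ) (h1 : δ ≤ 1 / 10) :
    Real.exp (-(π ^ 2 / (12 * δ))) ≤ 1 / 1000 := by
  have h4 : (7 : ℝ) ≤ π ^ 2 / (12 * δ) := by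
    rw [le_div_iff₀ (by positivity)]
    nlinarith [Real.pi_gt_three]
  have h5 : Real.exp (-(π ^ 2 / (12 * δ))) ≤ Real.exp (-7) := Real.exp_le_exp.2 (by linarith)
  refine h5.trans ?_
  rw [Real.exp_neg, inv_le_comm₀ (Real.exp_pos _) (by norm_num)]
  have h8 : (2.7 : ℝ) ≤ Real.exp 1 := by linarith [Real.exp_one_gt_d9]
  have h9 : Real.exp 7 = (Real.exp 1) ^ 7 := by
    rw [← Real.exp_nat_mul]; norm_num
  rw [h9]
  have h11 : (2.7 : ℝ) ^ 7 ≤ Real.exp 1 ^ 7 := pow_le_pow_left₀ (by norm_num) h8 7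
  norm_num at h11 ⊢
  linarith

theorem norm_hI_le {d : ℝ} (hd : 0 ≤ d) (hd3 : d ≤ 3) (n : ℕ) {δ ψ : ℝ} (h0 : 0 < δ)
    (h1 : δ ≤ 1 / 10) (h : |ψ| ≤ √3 * δ) :
    ‖hI d n (δ + ψ * I)‖ ≤ Real.exp (ex d n δ) := by
  rw [hI, norm_mul, Complex.norm_exp, EE_re, Real.exp_add]
  have h2 := norm_corr_le hd hd3 h0 h1 h
  have h3 := gap_exp hd3 h0 h
  have h4 := gap_small h0 h1
  have e1 := Real.exp_pos (π ^ 2 * d / 27 * uu δ ψ)
  have e2 := Real.exp_pos ((n - d / 12) * δ)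
  have e3 := Real.exp_pos (-(4 * π ^ 2 / 9 * uu δ ψ))
  have h5 : Real.exp (π ^ 2 * d / 27 * uu δ ψ) * Real.exp ((n - d / 12) * δ) *
      ‖cexp (-(d : ℂ) * Lst (δ + ψ * I)) - 1‖ ≤
      Real.exp ((n - d / 12) * δ) * (6.06 * (1 / 1000)) := by
    calc _ ≤ Real.exp (π ^ 2 * d / 27 * uu δ ψ) * Real.exp ((n - d / 12) * δ) *
        (6.06 * Real.exp (-(4 * π ^ 2 / 9 * uu δ ψ))) :=
          mul_le_mul_of_nonneg_left h2 (by positivity)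
      _ = Real.exp ((n - d / 12) * δ) * (6.06 * (Real.exp (π ^ 2 * d / 27 * uu δ ψ) *
          Real.exp (-(4 * π ^ 2 / 9 * uu δ ψ)))) := by ring
      _ ≤ _ := by
        refine mul_le_mul_of_nonneg_left ?_ e2.le
        refine mul_le_mul_of_nonneg_left (h3.trans h4) (by norm_num)
  refine h5.trans ?_
  have h6 : Real.exp ((n - d / 12) * δ) ≤ Real.exp (ex d n δ) := by
    refine Real.exp_le_exp.2 ?_
    unfold ex
    have : 0 < π ^ 2 / (108 * δ) := by positivity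
    nlinarith
  nlinarith

theorem norm_EE_sub_le {d : ℝ} (hd3 : d ≤ 3) (n : ℕ) {δ ψ : ℝ} (h0 : 0 < δ)
    (h1 : δ ≤ 1 / 10) (h : |ψ| ≤ √3 * δ) :
    ‖EE d n (δ + ψ * I) - EE 3 n (δ + ψ * I)‖ ≤ (3 - d) * (0.39 / δ) := by
  have e : EE d n (δ + ψ * I) - EE 3 n (δ + ψ * I) = ((3 - d : ℝ) : ℂ) *
      (-(((π / 18 : ℝ) : ℂ) * I) - ((π ^ 2 / 27 : ℝ) : ℂ) * (δ + ψ * I)⁻¹ +
        ((1 / 12 : ℝ) : ℂ) * (δ + ψ * I)) := by
    rw [EE, EE, div_eq_mul_inv (_ : ℂ) ((δ : ℂ) + ψ * I), div_eq_mul_inv (_ : ℂ) ((δ : ℂ) + ψ * I)]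
    push_cast
    ring
  rw [e, norm_mul, Complex.norm_real, Real.norm_eq_abs, abs_of_nonneg (by linarith)]
  refine mul_le_mul_of_nonneg_left ?_ (by linarith)
  have hw : ‖((δ : ℂ) + ψ * I)‖ ≤ 2 * δ := by
    rw [Complex.norm_def]
    refine Real.sqrt_le_iff.2 ⟨by positivity, (normSq_le h0 h).trans (by nlinarith)⟩
  have hw2 : δ ≤ ‖((δ : ℂ) + ψ * I)‖ := by
    have := Complex.abs_re_le_norm ((δ : ℂ) + ψ * I)
    rw [re_path, abs_of_pos h0] at this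
    exact this
  have hpi := Real.pi_lt_d4
  have hpi2 : π ^ 2 ≤ 9.8697 := by nlinarith [Real.pi_pos]
  have b1 : ‖-(((π / 18 : ℝ) : ℂ) * I)‖ ≤ 0.0175 / δ := by
    rw [norm_neg, norm_mul, Complex.norm_I, mul_one, Complex.norm_real, Real.norm_eq_abs,
      abs_of_pos (by positivity), le_div_iff₀ h0]
    nlinarith [Real.pi_pos]
  have b2 : ‖((π ^ 2 / 27 : ℝ) : ℂ) * ((δ : ℂ) + ψ * I)⁻¹‖ ≤ 0.3656 / δ := by
    rw [norm_mul, norm_inv, Complex.norm_real, Real.norm_eq_abs, abs_of_pos (by positivity),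
      ← div_eq_mul_inv]
    exact div_le_div₀ (by norm_num) (by linarith) h0 hw2
  have b3 : ‖((1 / 12 : ℝ) : ℂ) * ((δ : ℂ) + ψ * I)‖ ≤ 0.002 / δ := by
    rw [norm_mul, Complex.norm_real, Real.norm_eq_abs, abs_of_pos (by positivity),
      le_div_iff₀ h0]
    nlinarith
  refine (norm_add_le _ _).trans ?_
  have b4 := (norm_sub_le (-(((π / 18 : ℝ) : ℂ) * I)) (((π ^ 2 / 27 : ℝ) : ℂ) * ((δ : ℂ) + ψ * I)⁻¹))
  have b5 : 0.39 / δ = 0.0175 / δ + 0.3656 / δ + 0.0069 / δ := by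
    rw [← add_div, ← add_div]; norm_num
  have b6 : 0.002 / δ ≤ 0.0069 / δ := div_le_div_of_nonneg_right (by norm_num) h0.le
  rw [b5]
  linarith

theorem norm_hI_sub_le {d : ℝ} (hd : 0 ≤ d) (hd3 : d ≤ 3) (n : ℕ) {δ ψ : ℝ} (h0 : 0 < δ)
    (h1 : δ ≤ 1 / 10) (h : |ψ| ≤ √3 * δ) :
    ‖hI d n (δ + ψ * I) - hI 3 n (δ + ψ * I)‖ ≤
      (3 - d) * (π ^ 2 / (9 * δ) * Real.exp (ex 3 n δ)) := by
  set w : ℂ := δ + ψ * I with hw
  set ρ := Real.exp (-(4 * π ^ 2 / 9 * uu δ ψ)) with hρ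
  have hρ0 : 0 < ρ := Real.exp_pos _
  have hρ1 : ρ ≤ 1 / 1000 := rho_small h0 h1 h
  set M := π ^ 2 * 3 / 27 * uu δ ψ + n * δ with hM
  have hu : 0 < uu δ ψ := lt_of_lt_of_le (by positivity) (uu_ge h0 h)
  have hMd : (EE d n w).re ≤ M := by
    rw [hw, EE_re, hM]
    have : π ^ 2 * d / 27 * uu δ ψ ≤ π ^ 2 * 3 / 27 * uu δ ψ := by
      refine mul_le_mul_of_nonneg_right ?_ hu.le
      have : 0 < π ^ 2 := by positivity
      nlinarith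
    nlinarith
  have hM3 : (EE 3 n w).re ≤ M := by
    rw [hw, EE_re, hM]
    nlinarith
  have e : hI d n w - hI 3 n w = (cexp (EE d n w) - cexp (EE 3 n w)) *
      (cexp (-(d : ℂ) * Lst w) - 1) + cexp (EE 3 n w) *
        (cexp (-(d : ℂ) * Lst w) - cexp (-((3 : ℝ) : ℂ) * Lst w)) := by
    rw [hI, hI]; ring
  have hL := norm_Lst_le h0 h1 h
  have hLr : |(Lst w).re| ≤ 1.01 * ρ := (Complex.abs_re_le_norm _).trans hL
  have b1 : ‖cexp (EE d n w) - cexp (EE 3 n w)‖ ≤ (3 - d) * (0.39 / δ) * Real.exp M :=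
    (norm_exp_sub_exp_le hMd hM3).trans
      (mul_le_mul_of_nonneg_right (norm_EE_sub_le hd3 n h0 h1 h) (Real.exp_pos _).le)
  have b2 : ‖cexp (-(d : ℂ) * Lst w) - 1‖ ≤ 6.06 * ρ := norm_corr_le hd hd3 h0 h1 h
  have b3 : ‖cexp (EE 3 n w)‖ ≤ Real.exp M := by
    rw [Complex.norm_exp]; exact Real.exp_le_exp.2 hM3
  have b4 : ‖cexp (-(d : ℂ) * Lst w) - cexp (-((3 : ℝ) : ℂ) * Lst w)‖ ≤ (3 - d) * (1.03 * ρ) := by
    have r1 : (-(d : ℂ) * Lst w).re ≤ 0.01 := by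
      have : (-(d : ℂ) * Lst w).re = -(d * (Lst w).re) := by simp
      rw [this]
      have := (abs_le.1 hLr).1
      nlinarith
    have r2 : (-((3 : ℝ) : ℂ) * Lst w).re ≤ 0.01 := by
      have : (-((3 : ℝ) : ℂ) * Lst w).re = -(3 * (Lst w).re) := by
        simp
      rw [this]
      have := (abs_le.1 hLr).1
      nlinarith
    refine (norm_exp_sub_exp_le r1 r2).trans ?_
    have e2 : (-(d : ℂ) * Lst w - -((3 : ℝ) : ℂ) * Lst w) = ((3 - d : ℝ) : ℂ) * Lst w := by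
      push_cast; ring
    rw [e2, norm_mul, Complex.norm_real, Real.norm_eq_abs, abs_of_nonneg (by linarith), mul_assoc]
    refine mul_le_mul_of_nonneg_left ?_ (by linarith)
    have r3 : Real.exp 0.01 ≤ 1.0101 + 0.0001 := by
      have := Real.exp_bound_div_one_sub_of_interval (x := (0.01 : ℝ)) (by norm_num) (by norm_num)
      refine this.trans ?_
      norm_num
    calc ‖Lst w‖ * Real.exp 0.01 ≤ (1.01 * ρ) * (1.0101 + 0.0001) :=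
          mul_le_mul hL r3 (Real.exp_pos _).le (by positivity)
      _ ≤ 1.03 * ρ := by nlinarith
  rw [e]
  refine (norm_add_le _ _).trans ?_
  rw [norm_mul, norm_mul]
  have b5 : ‖cexp (EE d n w) - cexp (EE 3 n w)‖ * ‖cexp (-(d : ℂ) * Lst w) - 1‖ ≤
      (3 - d) * (0.39 / δ) * Real.exp M * (6.06 * ρ) :=
    mul_le_mul b1 b2 (norm_nonneg _) (by
      have : 0 ≤ 3 - d := by linarith
      positivity)
  have b6 : ‖cexp (EE 3 n w)‖ * ‖cexp (-(d : ℂ) * Lst w) - cexp (-((3 : ℝ) : ℂ) * Lst w)‖ ≤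
      Real.exp M * ((3 - d) * (1.03 * ρ)) :=
    mul_le_mul b3 b4 (norm_nonneg _) (Real.exp_pos _).le
  refine (add_le_add b5 b6).trans ?_
  have e3 : (3 - d) * (0.39 / δ) * Real.exp M * (6.06 * ρ) + Real.exp M * ((3 - d) * (1.03 * ρ)) =
      (3 - d) * ((0.39 / δ * 6.06 + 1.03) * (Real.exp M * ρ)) := by ring
  rw [e3]
  refine mul_le_mul_of_nonneg_left ?_ (by linarith)
  have b7 : Real.exp M * ρ ≤ 1 / 1000 * Real.exp (n * δ) := by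
    rw [hM, Real.exp_add]
    have := gap_exp (d := 3) le_rfl h0 h
    have h8 := gap_small h0 h1
    have h9 := Real.exp_pos (n * δ)
    calc _ = (Real.exp (π ^ 2 * 3 / 27 * uu δ ψ) * ρ) * Real.exp (n * δ) := by ring
      _ ≤ _ := mul_le_mul_of_nonneg_right (this.trans h8) h9.le
  have b8 : Real.exp (n * δ) ≤ Real.exp (ex 3 n δ) := by
    refine Real.exp_le_exp.2 ?_
    unfold ex
    have : 0 < π ^ 2 / (108 * δ) := by positivity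
    nlinarith
  have b9 : (0.39 / δ * 6.06 + 1.03) ≤ 2.6 / δ := by
    rw [le_div_iff₀ h0]
    have : 0.39 / δ * δ = 0.39 := by field_simp
    nlinarith
  have b10 : 1 / δ ≤ π ^ 2 / (9 * δ) := by
    rw [div_le_div_iff₀ h0 (by positivity)]
    have h9 : (9 : ℝ) ≤ π ^ 2 := by nlinarith [Real.pi_gt_three]
    have := mul_le_mul_of_nonneg_right h9 h0.le
    linarith
  calc (0.39 / δ * 6.06 + 1.03) * (Real.exp M * ρ) ≤ 2.6 / δ * (1 / 1000 * Real.exp (n * δ)) :=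
        mul_le_mul b9 b7 (by positivity) (by positivity)
    _ ≤ 2.6 / δ * (1 / 1000 * Real.exp (ex 3 n δ)) := by
        refine mul_le_mul_of_nonneg_left ?_ (by positivity)
        exact mul_le_mul_of_nonneg_left b8 (by norm_num)
    _ = 1 / δ * (0.0026 * Real.exp (ex 3 n δ)) := by ring
    _ ≤ π ^ 2 / (9 * δ) * Real.exp (ex 3 n δ) := by
        refine mul_le_mul b10 ?_ (by positivity) (by positivity)
        have := Real.exp_pos (ex 3 n δ)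
        linarith

/-! ### the sum of the errors -/

theorem norm_HH_le {δ E : ℝ} (h0 : 0 < δ) {F : ℂ → ℂ}
    (hF : ∀ ψ : ℝ, |ψ| ≤ √3 * δ → ‖F (δ + ψ * I)‖ ≤ E) :
    ‖∫ ψ in (-(√3 * δ))..(√3 * δ), F (δ + ψ * I)‖ ≤ 2 * (√3 * δ) * E := by
  have h3 : 0 ≤ √3 * δ := by positivity
  have h := intervalIntegral.norm_integral_le_of_norm_le_const (a := -(√3 * δ)) (b := √3 * δ)
    (f := fun ψ : ℝ => F (δ + ψ * I)) (C := E) (fun ψ hψ => by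
      rw [uIoc_of_le (by linarith)] at hψ
      exact hF ψ (abs_le.2 ⟨hψ.1.le, hψ.2⟩))
  refine h.trans (le_of_eq ?_)
  rw [abs_of_nonneg (by linarith)]
  ring

theorem sqrt3_le {δ : ℝ} (h0 : 0 < δ) (h1 : δ ≤ 1 / 10) : √3 * δ ≤ π / 3 := by
  have : √3 ≤ 2 := by
    rw [Real.sqrt_le_left (by norm_num)]; norm_num
  nlinarith [Real.pi_gt_three]

/-- the error -/
noncomputable def Err (d : ℝ) (n : ℕ) (δ : ℝ) : ℂ :=
  2 * π * (c d n : ℂ) - (PP d n δ + conj (PP d n δ))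

theorem norm_Err_le {d : ℝ} (hd : 0 ≤ d) (hd3 : d ≤ 3) (n : ℕ) {δ : ℝ} (h0 : 0 < δ)
    (h1 : δ ≤ 1 / 10) : ‖Err d n δ‖ ≤ 2 * π * Real.exp (ex d n δ) := by
  have e : Err d n δ = restI (√3 * δ) (fI d n δ) + (HH d n δ + conj (HH d n δ)) := by
    rw [Err, split d n h0]; ring
  have b1 := norm_restI_le (F := fI d n δ) (by positivity) (sqrt3_le h0 h1)
    (fun φ h2 h3 => norm_fI_le hd n h0 h1 h2 h3)
  have b2 : ‖HH d n δ‖ ≤ 2 * (√3 * δ) * Real.exp (ex d n δ) :=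
    norm_HH_le h0 (fun ψ h => norm_hI_le hd hd3 n h0 h1 h)
  have b3 : ‖conj (HH d n δ)‖ = ‖HH d n δ‖ := Complex.norm_conj _
  rw [e]
  refine (norm_add_le _ _).trans ?_
  have b4 := norm_add_le (HH d n δ) (conj (HH d n δ))
  linarith

theorem norm_Err_sub_le {d : ℝ} (hd : 0 ≤ d) (hd3 : d ≤ 3) (n : ℕ) {δ : ℝ} (h0 : 0 < δ)
    (h1 : δ ≤ 1 / 10) :
    ‖Err d n δ - Err 3 n δ‖ ≤ 2 * π * ((3 - d) * (π ^ 2 / (9 * δ) * Real.exp (ex 3 n δ))) := by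
  have e : Err d n δ - Err 3 n δ = restI (√3 * δ) (fun φ => fI d n δ φ - fI 3 n δ φ) +
      ((HH d n δ - HH 3 n δ) + conj (HH d n δ - HH 3 n δ)) := by
    rw [Err, Err, split d n h0, split 3 n h0, ← restI_sub (continuous_fI d n h0)
      (continuous_fI 3 n h0), map_sub]
    ring
  have b1 := norm_restI_le (F := fun φ => fI d n δ φ - fI 3 n δ φ) (by positivity)
    (sqrt3_le h0 h1) (fun φ h2 h3 => norm_fI_sub_le hd hd3 n h0 h1 h2 h3)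
  have b2 : ‖HH d n δ - HH 3 n δ‖ ≤
      2 * (√3 * δ) * ((3 - d) * (π ^ 2 / (9 * δ) * Real.exp (ex 3 n δ))) := by
    rw [HH, HH, ← intervalIntegral.integral_sub ((continuous_hI d n h0).intervalIntegrable _ _)
      ((continuous_hI 3 n h0).intervalIntegrable _ _)]
    exact norm_HH_le (F := fun w => hI d n w - hI 3 n w) h0
      (fun ψ h => norm_hI_sub_le hd hd3 n h0 h1 h)
  have b3 : ‖conj (HH d n δ - HH 3 n δ)‖ = ‖HH d n δ - HH 3 n δ‖ := Complex.norm_conj _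
  rw [e]
  refine (norm_add_le _ _).trans ?_
  have b4 := norm_add_le (HH d n δ - HH 3 n δ) (conj (HH d n δ - HH 3 n δ))
  linarith

end Pool.Agent.T6.H43.BW
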