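import Pool.Agent.T6.H86.DA.Mod
import Pool.Agent.T6.H86.DA.M1

/-!
# The transformation at the cusp 1/3
-/

set_option autoImplicit false

namespace Pool.Agent.T6.H43.BW

open scoped Real
open Complex Pool.Agent.T6.H86.DA

lemma arg_lt_of_re {z : ℂ} (hz : 0 < z.re) : |arg z| < π / 2 :=
  Complex.abs_arg_lt_pi_div_two_iff.2 (Or.inl hz)

/-- `v w = 4 π² / (9 w)` -/
noncomputable def vv (w : ℂ) : ℂ := 4 * π ^ 2 / (9 * w)

lemma vv_re (w : ℂ) : (vv w).re = 4 * π ^ 2 / 9 * w.re / normSq w := by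
  have h : vv w = ((4 * π ^ 2 / 9 : ℝ) : ℂ) * w⁻¹ := by
    rw [vv]; push_cast; rw [mul_comm 9 w, ← div_div, div_eq_mul_inv (_ / w), div_eq_mul_inv]; ring
  rw [h, Complex.re_ofReal_mul, Complex.inv_re]
  ring

lemma vv_re_pos {w : ℂ} (hw : 0 < w.re) : 0 < (vv w).re := by
  rw [vv_re]
  have : 0 < normSq w := Complex.normSq_pos.2 (ne_zero_of_re hw)
  positivity

theorem g_cusp {w : ℂ} (hw : 0 < w.re) :
    g (w + 2 * π * I / 3) - g (3 * (w + 2 * π * I / 3)) =
      -(I * π / 18) - π ^ 2 / (27 * w) + w / 12 +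
        (g (vv w - 2 * π * I / 3) - g (3 * (vv w - 2 * π * I / 3))) := by
  have hpi : (π : ℂ) ≠ 0 := by exact_mod_cast Real.pi_ne_zero
  have hI2 : (I : ℂ) ^ 2 = -1 := I_sq
  set s : ℂ := w + 2 * π * I / 3 with hs
  have hre : s.re = w.re := by
    have : (2 * (π : ℂ) * I / 3) = ((2 * π / 3 : ℝ) : ℂ) * I := by push_cast; ring
    rw [hs, this]; simp
  have hs0 : 0 < s.re := by rw [hre]; exact hw
  have hsn := ne_zero_of_re hs0
  have hwn := ne_zero_of_re hw
  set w' : ℂ := 6 * π * I * w / s with hw'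
  have hWs : W s = w' - 3 * (2 * π * I) := by
    rw [W, hw', eq_sub_iff_add_eq, div_add' _ _ _ hsn]
    congr 1
    rw [hs]
    linear_combination (4 * (π : ℂ) ^ 2) * hI2
  have h1 : g (W s) = g w' := by
    have e : w' = W s + 2 * π * I + 2 * π * I + 2 * π * I := by rw [hWs]; ring
    rw [e, M1.g_periodic, M1.g_periodic, M1.g_periodic]
  have hw'0 : 0 < w'.re := by
    have e : w'.re = (W s).re := by
      have : w' = W s + ((6 * π : ℝ) : ℂ) * I := by rw [hWs]; push_cast; ring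
      rw [this]; simp
    rw [e]; exact W_re_pos hs0
  have hw'n := ne_zero_of_re hw'0
  have hWw' : W w' = vv w - 2 * π * I / 3 := by
    have e : (6 * (π : ℂ) * I * w) ≠ 0 := by
      simp [hpi, hwn]
    rw [W, hw', vv, hs]
    rw [div_div_eq_mul_div, div_eq_iff e]
    have h9 : (9 * w : ℂ) ≠ 0 := by simp [hwn]
    field_simp
    linear_combination (108 * w) * hI2
  have h2 := g_modular hs0
  have h3 := g_modular hw'0
  have h3s : g (3 * s) = g (3 * w) := by
    have e : 3 * s = 3 * w + 2 * π * I := by rw [hs]; ring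
    rw [e, M1.g_periodic]
  have h3w0 : 0 < (3 * w).re := by
    have : (3 * w).re = 3 * w.re := by simp
    rw [this]; positivity
  have h4 := g_modular h3w0
  have hW3 : g (W (3 * w)) = g (3 * (vv w - 2 * π * I / 3)) := by
    have e : W (3 * w) = 3 * (vv w - 2 * π * I / 3) + 2 * π * I := by
      rw [W, vv]
      field_simp
      ring
    rw [e, M1.g_periodic]
  rw [h1, h3, hWw'] at h2
  rw [hW3] at h4
  rw [h3s, h2, h4]
  -- the logarithms
  have hpos : (0 : ℝ) < 2 * π := by positivity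
  have hlog : Complex.log s + Complex.log w' = Complex.log (3 * w) +
      ((Real.log (2 * π) : ℝ) : ℂ) + π / 2 * I := by
    have a1 := abs_lt.1 (arg_lt_of_re hs0)
    have a2 := abs_lt.1 (arg_lt_of_re hw'0)
    have a3 := abs_lt.1 (arg_lt_of_re h3w0)
    have b1 : Complex.log (s * w') = Complex.log s + Complex.log w' := by
      rw [Complex.log_mul_eq_add_log_iff hsn hw'n]
      constructor <;> linarith [a1.1, a1.2, a2.1, a2.2]
    have hw3n : (3 * w : ℂ) ≠ 0 := ne_zero_of_re h3w0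
    have hri : (2 * (π : ℂ) * I) ≠ 0 := by simp [hpi]
    have harg : arg (2 * (π : ℂ) * I) = π / 2 := by
      have : (2 * (π : ℂ) * I) = ((2 * π : ℝ) : ℂ) * I := by push_cast; ring
      rw [this, Complex.arg_real_mul _ hpos, Complex.arg_I]
    have b2 : Complex.log (3 * w * (2 * π * I)) = Complex.log (3 * w) + Complex.log (2 * π * I) := by
      rw [Complex.log_mul_eq_add_log_iff hw3n hri, harg]
      constructor <;> linarith [a3.1, a3.2, Real.pi_pos]
    have b3 : Complex.log (2 * π * I) = ((Real.log (2 * π) : ℝ) : ℂ) + π / 2 * I := by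
      have : (2 * (π : ℂ) * I) = ((2 * π : ℝ) : ℂ) * I := by push_cast; ring
      rw [this, Complex.log_ofReal_mul hpos I_ne_zero, Complex.log_I]
    have b4 : s * w' = 3 * w * (2 * π * I) := by
      rw [hw', mul_div_cancel₀ _ hsn]
      ring
    rw [← b1, b4, b2, b3]
    ring
  have e1 : (π : ℂ) ^ 2 / (6 * w') = - (I * π * s) / (36 * w) := by
    rw [hw']
    field_simp
    linear_combination (36 : ℂ) * hI2
  have e2 : w' / 24 = I * π / 4 + π ^ 2 / (6 * s) := by
    have e0 : w' * s = 6 * π * I * w := by rw [hw', div_mul_cancel₀ _ hsn]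
    have e00 : (I * π / 4 + π ^ 2 / (6 * s)) * (24 * s) = w' * s := by
      rw [e0, add_mul]
      have : (π : ℂ) ^ 2 / (6 * s) * (24 * s) = 4 * π ^ 2 := by field_simp; ring
      rw [this, hs]
      linear_combination (4 * (π : ℂ) ^ 2) * hI2
    have h24 : (24 * s : ℂ) ≠ 0 := mul_ne_zero (by norm_num) hsn
    have e3 : w' / 24 * (24 * s) = w' * s := by ring
    exact mul_right_cancel₀ h24 (e3.trans e00.symm)
  have e3 : I * (π : ℂ) * s / (36 * w) = I * π / 36 - π ^ 2 / (54 * w) := by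
    rw [hs]
    field_simp
    linear_combination (108 * (π : ℂ)) * hI2
  have e4 : (π : ℂ) ^ 2 / (6 * (3 * w)) = π ^ 2 / (18 * w) := by ring_nf
  rw [e1, neg_div, e3, e2, e4]
  have e5 : (π : ℂ) ^ 2 / (54 * w) = π ^ 2 / w / 54 := by rw [mul_comm, div_div]
  have e6 : (π : ℂ) ^ 2 / (18 * w) = π ^ 2 / w / 18 := by rw [mul_comm, div_div]
  have e7 : (π : ℂ) ^ 2 / (27 * w) = π ^ 2 / w / 27 := by rw [mul_comm, div_div]
  rw [e5, e6, e7]
  push_cast

  rw [hs] at hlog ⊢
  linear_combination (1 / 2 : ℂ) * hlog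

end Pool.Agent.T6.H43.BW
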