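import Pool.Agent.T6.H43.BW.Defs

/-!
# The finite check: functions for the kernel

A number `p = D + W * ∑ t_k W ^ k` packs a Taylor model: `2 ^ 110 * c (a + h) m` is
`∑ (t_k - O) h ^ k` up to `|h| ^ j * D`.
-/

set_option autoImplicit false

namespace Pool.Agent.T6.H43.BW.G

/-- the base `2 ^ 176` -/
def W : ℕ := 0x100000000000000000000000000000000000000000000

/-- the offset `2 ^ 152` -/
def O : ℕ := 0x100000000000000000000000000000000000000

/-- twice the offset -/
def O2 : ℕ := 0x200000000000000000000000000000000000000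

/-- dot product -/
def dotp : List ℕ → List ℕ → ℕ
  | a :: as, b :: bs => a * b + dotp as bs
  | _, _ => 0

/-- the new digits -/
def nd (A q C Q : ℕ) : ℕ → ℕ → ℕ → ℕ
  | 0, _, _ => 0
  | k + 1, x, u => (C - (A * (x % W) + q * u)) / Q + W * nd A q C Q k (x / W) (x % W)

/-- the last digit -/
def ld : ℕ → ℕ → ℕ → ℕ
  | 0, _, u => u
  | k + 1, x, _ => ld k (x / W) (x % W)

/-- the distance -/
def ad (x y : ℕ) : ℕ := (x - y) + (y - x)

/-- upper bound of the values of the polynomial with the given digits -/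
def hv (R q : ℕ) : ℕ → ℕ → ℕ
  | 0, _ => 0
  | k + 1, x => ad (x % W) O + (R * hv R q k (x / W) / q + 1)

/-- all digits are in `[1, 2 O)` -/
def rg : ℕ → ℕ → Bool
  | 0, _ => true
  | k + 1, x => Nat.ble 1 (x % W) && Nat.blt (x % W) O2 && rg k (x / W)

/-- the new error bound -/
def nD (A R q j K n S X : ℕ) : ℕ :=
  (A + R) * (X % W) / (q * (n + 1)) + R ^ (K - j) * ad (ld K (X / W) S) S / (q ^ (K - j) * (n + 1))
    + 4

/-- the new packed number -/
def nx (A R q j K n S X : ℕ) : ℕ :=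
  nD A R q j K n S X +
    W * nd A q ((A + q) * S + O * (q * (n + 1))) (q * (n + 1)) K (X / W) S

/-- the sign test for positive values -/
def tp (R q K p : ℕ) : Bool :=
  Nat.ble (O + (R * hv R q (K - 1) (p / W / W) / q + 1) + p % W) (p / W % W)

/-- the sign test for negative values -/
def tn (R q K p : ℕ) : Bool :=
  Nat.ble (p / W % W + (R * hv R q (K - 1) (p / W / W) / q + 1) + p % W) O

/-- the sign test at a zero -/
def tz (R q K p : ℕ) : Bool :=
  Nat.beq (p / W % W) O &&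
    Nat.ble (O + (R * hv R q (K - 2) (p / W / W / W) / q + 1) + p % W) (p / W / W % W)

/-- the sign test -/
def tst (R q j K m p : ℕ) : Bool :=
  Nat.beq m 3 || Nat.beq m 5 || cond (Nat.beq (m % 3) 0) (tp R q K p)
    (cond (Nat.beq (m % 3) 2 && Nat.beq j 1) (tz R q K p) (tn R q K p))

/-- all tests of one step -/
def ck (A R q j K n S X p : ℕ) : Bool :=
  Nat.blt (2 * S) W && Nat.blt ((A + q) * S + O * (q * (n + 1))) (W * (q * (n + 1))) &&
    Nat.blt (nD A R q j K n S X) O2 && rg K (p / W) && tst R q j K (n + 1) p &&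
    (Nat.beq j 0 || Nat.beq (((A + q) * S + O * (q * (n + 1)) - (A * (X / W % W) + q * S)) %
      (q * (n + 1))) 0)

/-- the loop -/
def go (A R q j K : ℕ) (sl : List ℕ) : ℕ → ℕ → ℕ → List ℕ → List ℕ → Bool
  | 0, _, _, _, _ => true
  | f + 1, n, S, a :: l, st =>
    ck A R q j K n S (dotp sl st) (nx A R q j K n S (dotp sl st)) &&
      go A R q j K sl f (n + 1) (S + O * a) l (nx A R q j K n S (dotp sl st) :: st)
  | _ + 1, _, _, [], _ => false

/-- the table of `sg` -/
def sgl : List ℕ :=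
[1, 3, 1, 7, 6, 3, 8, 15, 1, 18, 12, 7, 14, 24, 6, 31, 18, 3, 20, 42, 8, 36, 24, 15, 31, 42, 1,
56, 30, 18, 32, 63, 12, 54, 48, 7, 38, 60, 14, 90, 42, 24, 44, 84, 6, 72, 48, 31, 57, 93, 18,
98, 54, 3, 72, 120, 20, 90, 60, 42, 62, 96, 8, 127, 84, 36, 68, 126, 24, 144, 72, 15, 74, 114,
31, 140, 96, 42, 80, 186, 1, 126, 84, 56, 108, 132, 30, 180, 90, 18, 112, 168, 32, 144, 120,
63, 98, 171, 12, 217, 102, 54, 104, 210, 48, 162, 108, 7, 110, 216, 38, 248, 114, 60, 144, 210,
14, 180, 144, 90, 133, 186, 42, 224, 156, 24, 128, 255, 44, 252, 132, 84, 160, 204, 6, 270,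
138, 72, 140, 336, 48, 216, 168, 31, 180, 222, 57, 266, 150, 93, 152, 300, 18, 288, 192, 98,
158, 240, 54, 378, 192, 3, 164, 294, 72, 252, 168, 120, 183, 324, 20, 308, 174, 90, 248, 372,
60, 270, 180, 42, 182, 336, 62, 360, 228, 96, 216, 336, 8, 360, 192, 127, 194, 294, 84, 399,
198, 36, 200, 465, 68, 306, 240, 126, 252, 312, 24, 434, 240, 144, 212, 378, 72, 324, 264, 15,
256, 330, 74, 504, 252, 114, 224, 504, 31, 342, 228, 140, 230, 432, 96, 450, 234, 42, 288, 420,
80, 432, 240, 186, 242, 399, 1, 434, 342, 126, 280, 480, 84, 468, 252, 56, 288, 384, 108, 511,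
258, 132, 304, 588, 30, 396, 264, 180, 324, 480, 90, 476, 270, 18, 272, 558, 112, 414, 372,
168, 278, 420, 32, 720, 282, 144, 284, 504, 120, 504, 336, 63, 307, 540, 98, 518, 294, 171,
360, 570, 12, 450, 336, 217, 352, 456, 102, 620, 372, 54, 308, 672, 104, 576, 312, 210, 314,
474, 48, 560, 318, 162, 360, 762, 108, 576, 360, 7, 434, 492, 110, 630, 384, 216, 332, 588, 38,
504, 408, 248, 338, 549, 114, 756, 384, 60, 400, 660, 144, 522, 348, 210, 350, 744, 14, 756,
354, 180, 432, 630, 144, 540, 360, 90, 381, 546, 133, 784, 444, 186, 368, 744, 42, 684, 432,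
224, 374, 648, 156, 720, 420, 24, 380, 840, 128, 576, 384, 255, 576, 582, 44, 686, 390, 252,
432, 855, 132, 594, 480, 84, 398, 600, 160, 961, 402, 204, 448, 714, 6, 720, 456, 270, 410,
756, 138, 728, 480, 72, 504, 882, 140, 720, 420, 336, 422, 636, 48, 810, 558, 216, 496, 756,
168, 792, 432, 31, 434, 768, 180, 770, 480, 222, 440, 1080, 57, 756, 444, 266, 540, 672, 150,
1016, 450, 93, 504, 798, 152, 684, 672, 300, 458, 690, 18, 1008, 462, 288, 464, 930, 192, 702,
468, 98, 544, 864, 158, 900, 528, 240, 620, 1008, 54, 720, 480, 378, 532, 726, 192, 931, 588,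
3, 488, 930, 164, 1026, 492, 294, 540, 840, 72, 992, 576, 252, 500, 1092, 168, 756, 504, 120,
612, 864, 183, 896, 510, 324, 592, 1023, 20, 774, 624, 308, 576, 912, 174, 1260, 522, 90, 524,
924, 248, 792, 576, 372, 553, 972, 60, 1120, 588, 270, 648, 1020, 180, 810, 684, 42, 542, 816,
182, 1134, 660, 336, 548, 966, 62, 1116, 600, 360, 640, 834, 228, 980, 558, 96, 616, 1488, 216,
846, 564, 336, 684, 852, 8, 1080, 570, 360]

end Pool.Agent.T6.H43.BW.G
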