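import Pool.Agent.T6.H43.BW.G0

/-!
# The finite check: soundness
-/

set_option autoImplicit false

namespace Pool.Agent.T6.H43.BW.G

/-- the value of a polynomial with natural coefficients -/
def ev {α : Type*} [Semiring α] (b : α) : List ℕ → α
  | [] => 0
  | t :: ts => t + b * ev b ts

theorem ev_nil {α : Type*} [Semiring α] (b : α) : ev b [] = 0 := rfl

theorem ev_cons {α : Type*} [Semiring α] (b : α) (t : ℕ) (ts : List ℕ) :
    ev b (t :: ts) = t + b * ev b ts := rfl

theorem ev_consN (b : ℕ) (t : ℕ) (ts : List ℕ) : ev b (t :: ts) = t + b * ev b ts := rfl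

theorem W_pos : 0 < W := by unfold W; norm_num

theorem mod_W {u y : ℕ} (h : u < W) : (u + W * y) % W = u := by
  rw [Nat.add_mul_mod_self_left, Nat.mod_eq_of_lt h]

theorem div_W {u y : ℕ} (h : u < W) : (u + W * y) / W = y := by
  rw [Nat.add_mul_div_left _ _ W_pos, Nat.div_eq_of_lt h, zero_add]

/-- `nd` on lists -/
def nt (A q C Q : ℕ) : ℕ → List ℕ → List ℕ
  | _, [] => []
  | v, u :: us => (C - (A * u + q * v)) / Q :: nt A q C Q u us

/-- `ld` on lists -/
def la : ℕ → List ℕ → ℕ
  | v, [] => v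
  | _, u :: us => la u us

/-- `hv` on lists -/
def hvl (R q : ℕ) : List ℕ → ℕ
  | [] => 0
  | t :: ts => ad t O + (R * hvl R q ts / q + 1)

/-- geometric sum -/
noncomputable def ge (h : ℝ) : ℕ → ℝ
  | 0 => 0
  | n + 1 => 1 + h * ge h n

theorem nt_length (A q C Q : ℕ) : ∀ (us : List ℕ) (v : ℕ), (nt A q C Q v us).length = us.length
  | [], _ => rfl
  | u :: us, v => by simp [nt, nt_length A q C Q us u]

theorem nd_eq (A q C Q : ℕ) : ∀ (us : List ℕ) (v : ℕ), (∀ u ∈ us, u < W) →
    nd A q C Q us.length (ev W us) v = ev W (nt A q C Q v us) := by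
  intro us
  induction us with
  | nil => intro v _; rfl
  | cons u us ih =>
    intro v h
    have hu : u < W := h u (by simp)
    rw [List.length_cons, ev_consN, nd, nt, ev_consN, mod_W hu,
      div_W hu, ih u (fun x hx => h x (by simp [hx]))]

theorem ld_eq : ∀ (us : List ℕ) (v : ℕ), (∀ u ∈ us, u < W) →
    ld us.length (ev W us) v = la v us := by
  intro us
  induction us with
  | nil => intro v _; rfl
  | cons u us ih =>
    intro v h
    have hu : u < W := h u (by simp)
    rw [List.length_cons, ev_consN, ld, la, mod_W hu,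
      div_W hu, ih u (fun x hx => h x (by simp [hx]))]

theorem hv_eq (R q : ℕ) : ∀ (us : List ℕ), (∀ u ∈ us, u < W) →
    hv R q us.length (ev W us) = hvl R q us := by
  intro us
  induction us with
  | nil => intro _; rfl
  | cons u us ih =>
    intro h
    have hu : u < W := h u (by simp)
    rw [List.length_cons, ev_consN, hv, hvl, mod_W hu,
      div_W hu, ih (fun x hx => h x (by simp [hx]))]

theorem rg_spec : ∀ (us : List ℕ), (∀ u ∈ us, u < W) → rg us.length (ev W us) = true →
    ∀ u ∈ us, 1 ≤ u ∧ u < O2 := by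
  intro us
  induction us with
  | nil => intro _ _ u hu; simp at hu
  | cons u us ih =>
    intro h h2
    have hu : u < W := h u (by simp)
    rw [List.length_cons, ev_consN, rg, mod_W hu, div_W hu] at h2
    simp only [Bool.and_eq_true, Nat.ble_eq, Nat.blt_eq] at h2
    intro x hx
    rcases List.mem_cons.1 hx with rfl | hx
    · exact h2.1
    · exact ih (fun y hy => h y (by simp [hy])) h2.2 x hx

theorem ad_cast (x y : ℕ) : ((ad x y : ℕ) : ℝ) = |(x : ℝ) - y| := by
  unfold ad
  rcases le_total x y with h | h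
  · rw [Nat.sub_eq_zero_of_le h, zero_add, Nat.cast_sub h, abs_of_nonpos (by
      have : (x : ℝ) ≤ y := by exact_mod_cast h
      linarith)]
    ring
  · rw [Nat.sub_eq_zero_of_le h, add_zero, Nat.cast_sub h, abs_of_nonneg (by
      have : (y : ℝ) ≤ x := by exact_mod_cast h
      linarith)]

theorem lt_div_add_one (a b : ℕ) (hb : 0 < b) : (a : ℝ) / b < ((a / b : ℕ) : ℝ) + 1 := by
  rw [div_lt_iff₀ (by exact_mod_cast hb)]
  have h := Nat.lt_div_mul_add (a := a) hb
  have h2 : (a : ℝ) < ((a / b * b + b : ℕ) : ℝ) := by exact_mod_cast h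
  push_cast at h2
  linarith

theorem div_le' (a b : ℕ) : ((a / b : ℕ) : ℝ) ≤ (a : ℝ) / b := Nat.cast_div_le

theorem hvl_bound {R q : ℕ} (hq : 0 < q) {h : ℝ} (hh : |h| ≤ (R : ℝ) / q) : ∀ ts : List ℕ,
    |ev h ts - O * ge h ts.length| ≤ hvl R q ts := by
  intro ts
  induction ts with
  | nil => simp [ev_nil, ge, hvl]
  | cons t ts ih =>
    rw [ev_cons, List.length_cons, ge, hvl]
    have e : (t : ℝ) + h * ev h ts - O * (1 + h * ge h ts.length) =
        ((t : ℝ) - O) + h * (ev h ts - O * ge h ts.length) := by ring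
    rw [e]
    refine (abs_add_le _ _).trans ?_
    rw [abs_mul]
    have h1 := lt_div_add_one (R * hvl R q ts) q hq
    have h2 : |h| * |ev h ts - O * ge h ts.length| ≤ (R : ℝ) / q * hvl R q ts :=
      mul_le_mul hh ih (abs_nonneg _) (by positivity)
    have h3 : ((R * hvl R q ts : ℕ) : ℝ) / q = (R : ℝ) / q * hvl R q ts := by
      push_cast; ring
    rw [h3] at h1
    push_cast
    rw [ad_cast]
    linarith

theorem ge_nonneg {h : ℝ} (h0 : 0 ≤ h) : ∀ n, 0 ≤ ge h n
  | 0 => le_rfl
  | n + 1 => by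
    have := mul_nonneg h0 (ge_nonneg h0 n)
    rw [ge]; linarith

theorem ge_le {h : ℝ} (h0 : 0 ≤ h) (h1 : h ≤ 1 / 2) : ∀ n, ge h n ≤ 2
  | 0 => by rw [ge]; norm_num
  | n + 1 => by
    have h2 := ge_le h0 h1 n
    have h3 := ge_nonneg h0 n
    have : h * ge h n ≤ 1 / 2 * 2 := mul_le_mul h1 h2 h3 (by norm_num)
    rw [ge]; linarith

theorem ge_mul (h : ℝ) : ∀ n, (1 - h) * ge h n = 1 - h ^ n
  | 0 => by simp [ge]
  | n + 1 => by
    have := ge_mul h n
    rw [ge, pow_succ]
    linear_combination h * this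

/-- the error of one division -/
theorem dig_err {A q C Q u v : ℕ} (hQ : 0 < Q) (h1 : 1 ≤ (C - (A * u + q * v)) / Q) :
    |(((C - (A * u + q * v)) / Q : ℕ) : ℝ) - ((C : ℝ) - A * u - q * v) / Q| ≤ 1 := by
  have h2 : Q ≤ C - (A * u + q * v) := by
    by_contra hc
    rw [Nat.div_eq_of_lt (not_le.1 hc)] at h1
    omega
  have h3 : A * u + q * v ≤ C := by omega
  have h4 := lt_div_add_one (C - (A * u + q * v)) Q hQ
  have h5 := div_le' (C - (A * u + q * v)) Q
  rw [Nat.cast_sub h3] at h4 h5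
  push_cast at h4 h5 ⊢
  have e : (C : ℝ) - A * u - q * v = C - (A * u + q * v) := by ring
  rw [e, abs_le]
  constructor <;> linarith

theorem nt_err {A q C Q : ℕ} (hQ : 0 < Q) (h : ℝ) : ∀ (us : List ℕ) (v : ℕ),
    (∀ t ∈ nt A q C Q v us, 1 ≤ t) →
    |ev h (nt A q C Q v us) - ((C : ℝ) * ge h us.length - A * ev h us -
      q * (v + h * ev h us - la v us * h ^ us.length)) / Q| ≤ ge |h| us.length := by
  intro us
  induction us with
  | nil =>
    intro v _
    simp [nt, ev_nil, ge, la]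
  | cons u us ih =>
    intro v ht
    rw [nt] at ht
    have h1 : |(((C - (A * u + q * v)) / Q : ℕ) : ℝ) - ((C : ℝ) - A * u - q * v) / Q| ≤ 1 :=
      dig_err hQ (ht _ List.mem_cons_self)
    have h2 := ih u (fun t ht' => ht t (List.mem_cons_of_mem _ ht'))
    rw [nt, ev_cons, ev_cons, List.length_cons, ge, ge, la, pow_succ]
    set X := ev h us
    set Y := ev h (nt A q C Q u us)
    set Z := (((C - (A * u + q * v)) / Q : ℕ) : ℝ)
    have hQ' : (Q : ℝ) ≠ 0 := by positivity
    have e : Z + h * Y - ((C : ℝ) * (1 + h * ge h us.length) - A * (u + h * X) -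
        q * (v + h * (u + h * X) - la u us * (h ^ us.length * h))) / Q =
        (Z - ((C : ℝ) - A * u - q * v) / Q) + h * (Y - ((C : ℝ) * ge h us.length - A * X -
      q * (u + h * X - la u us * h ^ us.length)) / Q) := by
      field_simp
      ring
    rw [e]
    refine (abs_add_le _ _).trans ?_
    rw [abs_mul]
    have := mul_le_mul_of_nonneg_left h2 (abs_nonneg h)
    linarith

theorem nt_err' {A q C Q : ℕ} (hQ : 0 < Q) (h : ℝ) (hh : |h| ≤ 1 / 2) (us : List ℕ) (v j : ℕ)
    (hj : j = 0 ∨ j = 1)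
    (ht : ∀ t ∈ nt A q C Q v us, 1 ≤ t) (hx : j = 1 → ∀ u us', us = u :: us' →
      (C - (A * u + q * v)) % Q = 0) :
    |ev h (nt A q C Q v us) - ((C : ℝ) * ge h us.length - A * ev h us -
      q * (v + h * ev h us - la v us * h ^ us.length)) / Q| ≤ |h| ^ j * 2 := by
  rcases hj with rfl | rfl
  · rw [pow_zero, one_mul]
    exact (nt_err hQ h us v ht).trans (ge_le (abs_nonneg h) hh _)
  · rw [pow_one]
    cases us with
    | nil => simp [nt, ev_nil, ge, la]
    | cons u us =>
      rw [nt] at ht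
      have h0 := hx rfl u us rfl
      have h1 : 1 ≤ (C - (A * u + q * v)) / Q := ht _ (by simp)
      have h2 := nt_err (A := A) (q := q) (C := C) hQ h us u
        (fun t ht' => ht t (List.mem_cons_of_mem _ ht'))
      have h3 := ge_le (abs_nonneg h) hh us.length
      have hQ' : (Q : ℝ) ≠ 0 := by positivity
      have h4 : (((C - (A * u + q * v)) / Q : ℕ) : ℝ) = ((C : ℝ) - A * u - q * v) / Q := by
        have h5 : Q ≤ C - (A * u + q * v) := by
          by_contra hc
          rw [Nat.div_eq_of_lt (not_le.1 hc)] at h1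
          omega
        have h6 : A * u + q * v ≤ C := by omega
        rw [Nat.cast_div (Nat.dvd_of_mod_eq_zero h0) hQ', Nat.cast_sub h6]
        push_cast
        ring
      rw [nt, ev_cons, ev_cons, List.length_cons, ge, la, pow_succ, h4]
      set X := ev h us
      set Y := ev h (nt A q C Q u us)
      have e : ((C : ℝ) - A * u - q * v) / Q + h * Y - ((C : ℝ) * (1 + h * ge h us.length) -
          A * (u + h * X) - q * (v + h * (u + h * X) - la u us * (h ^ us.length * h))) / Q =
          h * (Y - ((C : ℝ) * ge h us.length - A * X -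
        q * (u + h * X - la u us * h ^ us.length)) / Q) := by
        field_simp
        ring
      rw [e, abs_mul]
      exact mul_le_mul_of_nonneg_left (h2.trans h3) (abs_nonneg h)

/-- the sum of `sg` -/
def sgs (i L : ℕ) : ℕ := ∑ m ∈ Finset.range L, sg (i + m + 1)

theorem sgs_succ (i L : ℕ) : sgs i (L + 1) = sg (i + 1) + sgs (i + 1) L := by
  unfold sgs
  rw [Finset.sum_range_succ', add_comm]
  congr 1
  refine Finset.sum_congr rfl fun m _ => ?_
  rw [show i + (m + 1) + 1 = i + 1 + m + 1 by ring]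

/-- the properties of a packed number -/
def TM (d h : ℝ) (j K : ℕ) (p m : ℕ) : Prop :=
  ∃ (D : ℕ) (ts : List ℕ), ts.length = K ∧ D < O2 ∧ (∀ t ∈ ts, t < O2) ∧
    p = D + W * ev W ts ∧
    |2 ^ 110 * c d m - (ev h ts - O * ge h K)| ≤ |h| ^ j * D

/-- all elements of a list satisfy `P` (with the length of the tail) -/
def All (P : ℕ → ℕ → Prop) : List ℕ → Prop
  | [] => True
  | p :: ps => P p ps.length ∧ All P ps

/-- a table of `sg` -/
def Tab : ℕ → List ℕ → Prop
  | _, [] => True
  | i, a :: as => a = sg (i + 1) ∧ Tab (i + 1) as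

theorem ev_zeros (b : ℝ) : ∀ n, ev b (List.replicate n 0) = 0
  | 0 => by simp [ev_nil]
  | n + 1 => by rw [List.replicate_succ, ev_cons, ev_zeros b n]; simp

theorem ev_zeros' (b : ℕ) : ∀ n, ev b (List.replicate n 0) = 0
  | 0 => by simp [ev_nil]
  | n + 1 => by rw [List.replicate_succ, ev_consN, ev_zeros' b n]; rfl

theorem ev_comb {α : Type*} [CommSemiring α] (b : α) (a : ℕ) : ∀ ts ss : List ℕ,
    ts.length = ss.length → ev b (List.zipWith (fun t s => a * t + s) ts ss) =
      a * ev b ts + ev b ss := by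
  intro ts
  induction ts with
  | nil =>
    intro ss h
    cases ss with
    | nil => simp [ev_nil]
    | cons s ss => simp at h
  | cons t ts ih =>
    intro ss h
    cases ss with
    | nil => simp at h
    | cons s ss =>
      rw [List.zipWith_cons_cons, ev_cons, ev_cons, ev_cons,
        ih ss (by simpa using h)]
      push_cast
      ring

theorem mem_comb (a : ℕ) (B C : ℕ) : ∀ ts ss : List ℕ, (∀ t ∈ ts, t ≤ B) → (∀ s ∈ ss, s ≤ C) →
    ∀ x ∈ List.zipWith (fun t s => a * t + s) ts ss, x ≤ a * B + C := by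
  intro ts
  induction ts with
  | nil => intro ss _ _ x hx; simp at hx
  | cons t ts ih =>
    intro ss h1 h2 x hx
    cases ss with
    | nil => simp at hx
    | cons s ss =>
      rw [List.zipWith_cons_cons, List.mem_cons] at hx
      rcases hx with rfl | hx
      · exact add_le_add (Nat.mul_le_mul_left _ (h1 _ (by simp))) (h2 _ (by simp))
      · exact ih ss (fun y hy => h1 y (by simp [hy])) (fun y hy => h2 y (by simp [hy])) x hx

theorem dot_spec {d h : ℝ} {j K : ℕ} : ∀ (st sl : List ℕ) (i : ℕ), All (TM d h j K) st →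
    Tab i sl → st.length ≤ sl.length →
    ∃ (SD : ℕ) (ss : List ℕ), ss.length = K ∧ SD ≤ O2 * sgs i st.length ∧
      (∀ s ∈ ss, s ≤ O2 * sgs i st.length) ∧ dotp sl st = SD + W * ev W ss ∧
      |2 ^ 110 * (∑ m ∈ Finset.range st.length, (sg (i + m + 1) : ℝ) * c d (st.length - 1 - m)) -
        (ev h ss - O * sgs i st.length * ge h K)| ≤ |h| ^ j * SD := by
  intro st
  induction st with
  | nil =>
    intro sl i _ _ _
    refine ⟨0, List.replicate K 0, by simp, by simp, ?_, ?_, ?_⟩
    · intro s hs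
      rw [List.eq_of_mem_replicate hs]
      exact Nat.zero_le _
    · rw [ev_zeros']
      cases sl <;> rfl
    · simp [ev_zeros, sgs]
  | cons p ps ih =>
    intro sl i hst htab hlen
    cases sl with
    | nil => simp at hlen
    | cons a as =>
      obtain ⟨hp, hps⟩ := hst
      obtain ⟨rfl, has⟩ := htab
      obtain ⟨SD, ss, h1, h2, h3, h4, h5⟩ := ih as (i + 1) hps has (by simpa using hlen)
      obtain ⟨D, ts, g1, g2, g3, g4, g5⟩ := hp
      refine ⟨sg (i + 1) * D + SD, List.zipWith (fun t s => sg (i + 1) * t + s) ts ss, ?_, ?_, ?_,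
        ?_, ?_⟩
      · rw [List.length_zipWith, g1, h1, min_self]
      · rw [List.length_cons, sgs_succ, mul_add, mul_comm O2 (sg (i + 1))]
        exact add_le_add (Nat.mul_le_mul_left _ g2.le) h2
      · rw [List.length_cons, sgs_succ, mul_add, mul_comm O2 (sg (i + 1))]
        exact mem_comb _ _ _ ts ss (fun t ht => (g3 t ht).le) h3
      · rw [dotp, h4, g4, ev_comb W _ ts ss (g1.trans h1.symm)]
        simp only [Nat.cast_id]
        ring
      · rw [List.length_cons, Finset.sum_range_succ', ev_comb h _ ts ss (g1.trans h1.symm),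
          sgs_succ]
        have e1 : ∑ m ∈ Finset.range ps.length,
            (sg (i + (m + 1) + 1) : ℝ) * c d (ps.length + 1 - 1 - (m + 1)) =
            ∑ m ∈ Finset.range ps.length, (sg (i + 1 + m + 1) : ℝ) * c d (ps.length - 1 - m) := by
          refine Finset.sum_congr rfl fun m _ => ?_
          rw [show i + (m + 1) + 1 = i + 1 + m + 1 by ring,
            show ps.length + 1 - 1 - (m + 1) = ps.length - 1 - m by omega]
        rw [e1]
        set T' := ∑ m ∈ Finset.range ps.length, (sg (i + 1 + m + 1) : ℝ) *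
          c d (ps.length - 1 - m)
        simp only [add_zero, Nat.add_sub_cancel, Nat.sub_zero]
        push_cast
        have e2 : 2 ^ 110 * (T' + (sg (i + 1) : ℝ) * c d ps.length) -
            ((sg (i + 1) : ℝ) * ev h ts + ev h ss -
              O * ((sg (i + 1) : ℝ) + sgs (i + 1) ps.length) * ge h K) =
            (sg (i + 1) : ℝ) * (2 ^ 110 * c d ps.length - (ev h ts - O * ge h K)) +
            (2 ^ 110 * T' - (ev h ss - O * sgs (i + 1) ps.length * ge h K)) := by ring
        rw [e2]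
        refine (abs_add_le _ _).trans ?_
        rw [abs_mul, Nat.abs_cast]
        have := mul_le_mul_of_nonneg_left g5 (Nat.cast_nonneg (α := ℝ) (sg (i + 1)))
        linarith

theorem c_succ (d : ℝ) (n : ℕ) : c d (n + 1) = -d / ((n : ℝ) + 1) *
    ∑ m ∈ Finset.range (n + 1), (sg (0 + m + 1) : ℝ) * c d (n + 1 - 1 - m) := by
  rw [c, Fin.sum_univ_eq_sum_range (fun k => (sg (k + 1) : ℝ) * c d (n - k)) (n + 1)]
  congr 1
  refine Finset.sum_congr rfl fun m _ => ?_
  rw [zero_add, Nat.add_sub_cancel]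

theorem nx_spec {A R q j K n : ℕ} {h : ℝ} (hq : 0 < q) (hh : |h| ≤ (R : ℝ) / q)
    (hh2 : |h| ≤ 1 / 2) (hj : j = 0 ∨ j = 1) (hjK : j < K) {st sl : List ℕ}
    (hst : All (TM ((A : ℝ) / q + h) h j K) st) (hlen : st.length = n + 1) (htab : Tab 0 sl)
    (hsl : n + 1 ≤ sl.length) {S : ℕ} (hS : S = O * sgs 0 (n + 1))
    (hc : ck A R q j K n S (dotp sl st) (nx A R q j K n S (dotp sl st)) = true) :
    TM ((A : ℝ) / q + h) h j K (nx A R q j K n S (dotp sl st)) (n + 1) := by
  obtain ⟨SD, ss, h1, h2, h3, h4, h5⟩ := dot_spec st sl 0 hst htab (by omega)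
  rw [hlen] at h2 h3 h5
  set X := dotp sl st with hX
  have hO2 : O2 = 2 * O := by unfold O2 O; norm_num
  have hO2W : O2 < W := by unfold O2 W; norm_num
  simp only [ck, Bool.and_eq_true, Nat.blt_eq, Bool.or_eq_true, Nat.beq_eq] at hc
  obtain ⟨⟨⟨⟨⟨c1, c2⟩, c3⟩, c4⟩, _⟩, c6⟩ := hc
  have hSD : SD < W := by
    refine lt_of_le_of_lt h2 (lt_of_le_of_lt (le_of_eq ?_) c1)
    rw [hS, hO2]; ring
  have hss : ∀ s ∈ ss, s < W := by
    intro s hs
    refine lt_of_le_of_lt (h3 s hs) (lt_of_le_of_lt (le_of_eq ?_) c1)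
    rw [hS, hO2]; ring
  have hXm : X % W = SD := by rw [h4, mod_W hSD]
  have hXd : X / W = ev W ss := by rw [h4, div_W hSD]
  have hnx : nx A R q j K n S X = nD A R q j K n S X + W *
      ev W (nt A q ((A + q) * S + O * (q * (n + 1))) (q * (n + 1)) S ss) := by
    unfold nx
    rw [hXd, ← h1, nd_eq _ _ _ _ ss S hss]
  have hnD : nD A R q j K n S X = (A + R) * SD / (q * (n + 1)) +
      R ^ (K - j) * ad (la S ss) S / (q ^ (K - j) * (n + 1)) + 4 := by
    unfold nD
    rw [hXm, hXd]
    nth_rewrite 2 [← h1]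
    rw [ld_eq ss S hss]
  have hmod : X / W % W = ss.headD 0 := by
    rw [hXd]
    cases ss with
    | nil => simp [ev_nil]
    | cons s ss => rw [ev_consN, mod_W (hss s (by simp))]; rfl
  set D := nD A R q j K n S X with hD
  have hQ0 : 0 < q * (n + 1) := by positivity
  set Q := q * (n + 1) with hQ
  set C := (A + q) * S + O * Q with hC
  set ts := nt A q C Q S ss with hts
  have htl : ts.length = K := by rw [hts, nt_length, h1]
  -- all new digits are small
  have htW : ∀ t ∈ ts, t < W := by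
    have key : ∀ (us : List ℕ) (v : ℕ), ∀ t ∈ nt A q C Q v us, t < W := by
      intro us
      induction us with
      | nil => intro v t ht; simp [nt] at ht
      | cons u us ih =>
        intro v t ht
        rw [nt, List.mem_cons] at ht
        rcases ht with rfl | ht
        · rw [Nat.div_lt_iff_lt_mul hQ0]
          exact lt_of_le_of_lt (Nat.sub_le _ _) c2
        · exact ih u t ht
    exact key ss S
  have hDW : D < W := lt_trans c3 hO2W
  have hdiv : nx A R q j K n S X / W = ev W ts := by rw [hnx, div_W hDW]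
  have hrg : ∀ t ∈ ts, 1 ≤ t ∧ t < O2 := by
    apply rg_spec ts htW
    rw [htl, ← hdiv]
    exact c4
  refine ⟨D, ts, htl, c3, fun t ht => (hrg t ht).2, hnx, ?_⟩
  -- the bound
  have herr := nt_err' (A := A) (q := q) (C := C) hQ0 h hh2 ss S j hj (fun t ht => (hrg t ht).1)
    (by
      intro hj1 u us' hu
      rcases c6 with c6 | c6
      · omega
      · rw [hmod, hu] at c6
        exact c6)
  rw [← hts, h1] at herr
  rw [c_succ]
  set Y := ∑ m ∈ Finset.range (n + 1), (sg (0 + m + 1) : ℝ) * c ((A : ℝ) / q + h) (n + 1 - 1 - m)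
    with hY
  have hqR : (0 : ℝ) < q := by exact_mod_cast hq
  have hnR : (0 : ℝ) < (n : ℝ) + 1 := by positivity
  have hQR : (Q : ℝ) = q * (n + 1) := by rw [hQ]; push_cast; ring
  have hSR : (S : ℝ) = O * sgs 0 (n + 1) := by rw [hS]; push_cast; ring
  have hCR : (C : ℝ) = (A + q) * S + O * (q * (n + 1)) := by rw [hC, hQ]; push_cast; ring
  rw [← hSR] at h5
  set y0 := ev h ss - (S : ℝ) * ge h K with hy0
  set E := ev h ts - ((C : ℝ) * ge h K - A * ev h ss - q * (S + h * ev h ss -
    la S ss * h ^ K)) / Q with hE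
  have hg := ge_mul h K
  have key : 2 ^ 110 * (-((A : ℝ) / q + h) / ((n : ℝ) + 1) * Y) - (ev h ts - O * ge h K) =
      -(((A : ℝ) / q + h) / ((n : ℝ) + 1)) * (2 ^ 110 * Y - y0) -
        ((la S ss : ℝ) - S) * h ^ K / ((n : ℝ) + 1) - E := by
    rw [hE, hy0, hCR, hQR]
    have hg' : h ^ K = 1 - (1 - h) * ge h K := by linarith
    rw [hg']
    field_simp
    ring
  rw [key]
  have hadc : ((ad (la S ss) S : ℕ) : ℝ) = |(la S ss : ℝ) - S| := ad_cast _ _
  have b1 : |-(((A : ℝ) / q + h) / ((n : ℝ) + 1)) * (2 ^ 110 * Y - y0)| ≤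
      |h| ^ j * (((A : ℝ) + R) * SD / (q * (n + 1))) := by
    rw [abs_mul, abs_neg, abs_div, abs_of_pos hnR]
    have e1 : |(A : ℝ) / q + h| ≤ ((A : ℝ) + R) / q := by
      refine (abs_add_le _ _).trans ?_
      rw [abs_of_nonneg (by positivity), add_div]
      linarith
    calc |(A : ℝ) / q + h| / ((n : ℝ) + 1) * |2 ^ 110 * Y - y0|
        ≤ (((A : ℝ) + R) / q) / ((n : ℝ) + 1) * (|h| ^ j * SD) := by
          apply mul_le_mul _ h5 (abs_nonneg _) (by positivity)
          exact div_le_div_of_nonneg_right e1 hnR.le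
      _ = |h| ^ j * (((A : ℝ) + R) * SD / (q * (n + 1))) := by
          field_simp
  have b2 : |((la S ss : ℝ) - S) * h ^ K / ((n : ℝ) + 1)| ≤
      |h| ^ j * (((R : ℝ) ^ (K - j) * ad (la S ss) S) / ((q : ℝ) ^ (K - j) * (n + 1))) := by
    rw [abs_div, abs_of_pos hnR, abs_mul, ← hadc, abs_pow]
    have e1 : |h| ^ K = |h| ^ j * |h| ^ (K - j) := by
      rw [← pow_add]; congr 1; omega
    have e2 : |h| ^ (K - j) ≤ ((R : ℝ) / q) ^ (K - j) := pow_le_pow_left₀ (abs_nonneg _) hh _
    rw [e1]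
    calc ((ad (la S ss) S : ℕ) : ℝ) * (|h| ^ j * |h| ^ (K - j)) / ((n : ℝ) + 1)
        ≤ ((ad (la S ss) S : ℕ) : ℝ) * (|h| ^ j * ((R : ℝ) / q) ^ (K - j)) / ((n : ℝ) + 1) := by
          gcongr
      _ = _ := by
          rw [div_pow]
          field_simp
  have b3 := lt_div_add_one ((A + R) * SD) Q hQ0
  have b4 := lt_div_add_one (R ^ (K - j) * ad (la S ss) S) (q ^ (K - j) * (n + 1)) (by positivity)
  have b5 : (D : ℝ) = (((A + R) * SD / Q : ℕ) : ℝ) +
      ((R ^ (K - j) * ad (la S ss) S / (q ^ (K - j) * (n + 1)) : ℕ) : ℝ) + 4 := by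
    rw [hnD]; push_cast; ring
  rw [hQR] at b3
  push_cast at b3 b4
  have b6 : ((A : ℝ) + R) * SD / (q * (n + 1)) +
      (((R : ℝ) ^ (K - j) * ad (la S ss) S) / ((q : ℝ) ^ (K - j) * (n + 1))) + 2 ≤ D := by
    rw [b5]; linarith
  have b7 := mul_le_mul_of_nonneg_left b6 (pow_nonneg (abs_nonneg h) j)
  refine (abs_sub _ _).trans ?_
  have b8 := abs_sub (-(((A : ℝ) / q + h) / ((n : ℝ) + 1)) * (2 ^ 110 * Y - y0))
    (((la S ss : ℝ) - S) * h ^ K / ((n : ℝ) + 1))
  rw [mul_add, mul_add] at b7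
  linarith

/-- the sign condition from the test -/
theorem good_of_tst {d h : ℝ} {R q j K p m : ℕ} (hq : 0 < q) (hh : |h| ≤ (R : ℝ) / q)
    (hh2 : |h| ≤ 1 / 2) (hj : j = 0 ∨ j = 1) (hj1 : j = 1 → h ≤ 0) (hK : 2 ≤ K)
    (hp : TM d h j K p m) (ht : tst R q j K m p = true) (h3 : m ≠ 3) (h5 : m ≠ 5) : Good d m := by
  obtain ⟨D, ts, g1, g2, g3, g4, g5⟩ := hp
  have hO2W : O2 < W := by unfold O2 W; norm_num
  obtain ⟨t0, t1, rest, rfl⟩ : ∃ t0 t1 rest, ts = t0 :: t1 :: rest := by
    match ts, g1 with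
    | t0 :: t1 :: rest, _ => exact ⟨t0, t1, rest, rfl⟩
    | [_], h => simp at h; omega
    | [], h => simp at h; omega
  have hW0 : D < W := lt_trans g2 hO2W
  have hW1 : t0 < W := lt_trans (g3 _ (by simp)) hO2W
  have hW2 : t1 < W := lt_trans (g3 _ (by simp)) hO2W
  have hW3 : ∀ u ∈ rest, u < W := fun u hu => lt_trans (g3 _ (by simp [hu])) hO2W
  have hW4 : ∀ u ∈ t1 :: rest, u < W := fun u hu => lt_trans (g3 _ (by
    rw [List.mem_cons]; exact Or.inr hu)) hO2W
  have e0 : p % W = D := by rw [g4, mod_W hW0]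
  have e1 : p / W % W = t0 := by rw [g4, div_W hW0, ev_consN, mod_W hW1]
  have e2 : p / W / W = ev W (t1 :: rest) := by rw [g4, div_W hW0, ev_consN, div_W hW1]
  have e3 : p / W / W % W = t1 := by rw [e2, ev_consN, mod_W hW2]
  have e4 : p / W / W / W = ev W rest := by rw [e2, ev_consN, div_W hW2]
  have l1 : (t1 :: rest).length = K - 1 := by
    simp only [List.length_cons] at g1 ⊢; omega
  have l2 : rest.length = K - 2 := by
    simp only [List.length_cons] at g1; omega
  have e5 : hv R q (K - 1) (p / W / W) = hvl R q (t1 :: rest) := by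
    rw [e2, ← l1, hv_eq R q _ hW4]
  have e6 : hv R q (K - 2) (p / W / W / W) = hvl R q rest := by
    rw [e4, ← l2, hv_eq R q _ hW3]
  have hR0 : (0 : ℝ) ≤ (R : ℝ) / q := (abs_nonneg h).trans hh
  have hjD : |h| ^ j * D ≤ D := by
    have : |h| ^ j ≤ 1 := pow_le_one₀ (abs_nonneg _) (by linarith)
    exact mul_le_of_le_one_left (Nat.cast_nonneg _) this
  have hgK : ge h K = 1 + h * (1 + h * ge h (K - 2)) := by
    obtain ⟨k, rfl⟩ : ∃ k, K = k + 1 + 1 := ⟨K - 2, by omega⟩
    rw [ge, ge]; rfl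
  have hgK1 : ge h (K - 1) = 1 + h * ge h (K - 2) := by
    obtain ⟨k, rfl⟩ : ∃ k, K = k + 1 + 1 := ⟨K - 2, by omega⟩
    rfl
  have r1 := hvl_bound hq hh (t1 :: rest)
  have r2 := hvl_bound hq hh rest
  rw [l1, hgK1] at r1
  rw [l2] at r2
  rw [ev_cons, hgK] at g5
  set P1 := ev h (t1 :: rest) with hP1
  have m1 := lt_div_add_one (R * hvl R q (t1 :: rest)) q hq
  have m2 := lt_div_add_one (R * hvl R q rest) q hq
  have n1 : |h| * |P1 - O * (1 + h * ge h (K - 2))| ≤ (R : ℝ) / q * hvl R q (t1 :: rest) :=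
    mul_le_mul hh r1 (abs_nonneg _) hR0
  have n2 : |h| * |ev h rest - O * ge h (K - 2)| ≤ (R : ℝ) / q * hvl R q rest :=
    mul_le_mul hh r2 (abs_nonneg _) hR0
  have f1 : ((R * hvl R q (t1 :: rest) : ℕ) : ℝ) / q = (R : ℝ) / q * hvl R q (t1 :: rest) := by
    push_cast; ring
  have f2 : ((R * hvl R q rest : ℕ) : ℝ) / q = (R : ℝ) / q * hvl R q rest := by
    push_cast; ring
  rw [f1] at m1
  rw [f2] at m2
  -- the main inequality
  have main : |2 ^ 110 * c d m - ((t0 : ℝ) - O)| ≤
      ((R * hvl R q (t1 :: rest) / q : ℕ) : ℝ) + 1 + (D : ℝ) := by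
    have e : 2 ^ 110 * c d m - ((t0 : ℝ) - O) = (2 ^ 110 * c d m - ((t0 : ℝ) + h * P1 -
        O * (1 + h * (1 + h * ge h (K - 2))))) + h * (P1 - O * (1 + h * ge h (K - 2))) := by ring
    rw [e]
    refine (abs_add_le _ _).trans ?_
    rw [abs_mul h]
    refine (add_le_add (g5.trans hjD) (n1.trans m1.le)).trans (le_of_eq ?_)
    ring
  have hpos : (0 : ℝ) < 2 ^ 110 := by positivity
  unfold tst at ht
  have hb3 : Nat.beq m 3 = false := by
    rw [Bool.eq_false_iff]; intro hc; exact h3 (Nat.eq_of_beq_eq_true hc)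
  have hb5 : Nat.beq m 5 = false := by
    rw [Bool.eq_false_iff]; intro hc; exact h5 (Nat.eq_of_beq_eq_true hc)
  rw [hb3, hb5, Bool.false_or, Bool.false_or] at ht
  by_cases hm : m % 3 = 0
  · have hb : Nat.beq (m % 3) 0 = true := by rw [hm]; rfl
    rw [hb, cond_true] at ht
    refine ⟨fun _ => ?_, fun hc => absurd hm hc⟩
    unfold tp at ht
    rw [Nat.ble_eq, e0, e1, e5] at ht
    have ht' : ((O + (R * hvl R q (t1 :: rest) / q + 1) + D : ℕ) : ℝ) ≤ (t0 : ℝ) := by
      exact_mod_cast ht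
    push_cast at ht'
    rw [abs_le] at main
    have : 0 ≤ 2 ^ 110 * c d m := by linarith [main.1]
    exact nonneg_of_mul_nonneg_right this hpos
  · have hb : Nat.beq (m % 3) 0 = false := by
      rw [Bool.eq_false_iff]; intro hc; exact hm (Nat.eq_of_beq_eq_true hc)
    rw [hb, cond_false] at ht
    refine ⟨fun hc => absurd hc hm, fun _ => ?_⟩
    have fin : 2 ^ 110 * c d m ≤ 0 → c d m ≤ 0 := fun hx => by
      by_contra hc
      rw [not_le] at hc
      have := mul_pos hpos hc
      linarith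
    cases hz : (Nat.beq (m % 3) 2 && Nat.beq j 1) with
    | true =>
      rw [hz, cond_true] at ht
      rw [Bool.and_eq_true] at hz
      have hj' : j = 1 := Nat.eq_of_beq_eq_true hz.2
      subst hj'
      unfold tz at ht
      rw [Bool.and_eq_true, Nat.ble_eq, e1, e3, e0, e6] at ht
      have ht0 : t0 = O := Nat.eq_of_beq_eq_true ht.1
      have ht' : ((O + (R * hvl R q rest / q + 1) + D : ℕ) : ℝ) ≤ (t1 : ℝ) := by
        exact_mod_cast ht.2
      push_cast at ht'
      rw [ht0, hP1, ev_cons, pow_one] at g5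
      have hh0 : h ≤ 0 := hj1 rfl
      apply fin
      -- `2 ^ 110 c = h (t1 - O + h (..)) + err`
      set Z := (t1 : ℝ) - O + h * (ev h rest - O * ge h (K - 2)) with hZ
      have hZD : (D : ℝ) ≤ Z := by
        have := neg_abs_le (h * (ev h rest - O * ge h (K - 2)))
        rw [abs_mul] at this
        linarith
      have e : 2 ^ 110 * c d m - ((O : ℝ) + h * ((t1 : ℝ) + h * ev h rest) -
          O * (1 + h * (1 + h * ge h (K - 2)))) = 2 ^ 110 * c d m - h * Z := by
        rw [hZ]; ring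
      rw [e] at g5
      have g6 := (abs_le.1 g5).2
      rw [abs_of_nonpos hh0] at g6
      have : h * Z ≤ h * D := mul_le_mul_of_nonpos_left hZD hh0
      linarith
    | false =>
      rw [hz, cond_false] at ht
      unfold tn at ht
      rw [Nat.ble_eq, e0, e1, e5] at ht
      have ht' : ((t0 + (R * hvl R q (t1 :: rest) / q + 1) + D : ℕ) : ℝ) ≤ (O : ℝ) := by
        exact_mod_cast ht
      push_cast at ht'
      rw [abs_le] at main
      apply fin
      linarith [main.2]

theorem go_spec {A R q j K : ℕ} {h : ℝ} (hq : 0 < q) (hh : |h| ≤ (R : ℝ) / q)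
    (hh2 : |h| ≤ 1 / 2) (hj : j = 0 ∨ j = 1) (hj1 : j = 1 → h ≤ 0) (hK : 2 ≤ K) {sl : List ℕ}
    (htab : Tab 0 sl) : ∀ (f n S : ℕ) (l st : List ℕ), go A R q j K sl f n S l st = true →
    All (TM ((A : ℝ) / q + h) h j K) st → st.length = n + 1 → S = O * sgs 0 (n + 1) →
    Tab (n + 1) l → n + f ≤ sl.length →
    ∀ m, n < m → m ≤ n + f → m ≠ 3 → m ≠ 5 → Good ((A : ℝ) / q + h) m := by
  intro f
  induction f with
  | zero => intro n S l st _ _ _ _ _ _ m h1 h2; omega
  | succ f ih =>
    intro n S l st hgo hall hlen hS hl hsl m h1 h2 h3 h5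
    cases l with
    | nil => simp [go] at hgo
    | cons a l =>
      rw [go, Bool.and_eq_true] at hgo
      obtain ⟨hck, hgo⟩ := hgo
      obtain ⟨ha, hl⟩ := hl
      have hT := nx_spec hq hh hh2 hj (by omega) hall hlen htab (by omega) hS hck
      rcases Nat.lt_or_ge (n + 1) m with hm | hm
      · refine ih (n + 1) _ l _ hgo ⟨by rw [hlen]; exact hT, hall⟩ (by simp [hlen]) ?_ hl (by omega)
          m hm (by omega) h3 h5
        rw [hS, ha]
        unfold sgs
        rw [Finset.sum_range_succ _ (n + 1), mul_add, zero_add]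
      · obtain rfl : m = n + 1 := by omega
        simp only [ck, Bool.and_eq_true] at hck
        exact good_of_tst hq hh hh2 hj hj1 hK hT hck.1.2 h3 h5

end Pool.Agent.T6.H43.BW.G
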