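import Pool.Agent.T6.H43.BW.G1

/-!
# The finite check: table, first values, instances
-/

set_option autoImplicit false
set_option maxRecDepth 100000

namespace Pool.Agent.T6.H43.BW.G

/-- the sum of `sg`, for the kernel -/
def sf (n : ℕ) : ℕ → ℕ
  | 0 => 0
  | k + 1 => sf n k + cond (Nat.beq (n % (k + 1)) 0 && !Nat.beq ((k + 1) % 3) 0) (k + 1) 0

theorem sf_eq (n : ℕ) : ∀ k, sf n k = ∑ i ∈ Finset.range k,
    if (i + 1) ∣ n ∧ ¬ 3 ∣ (i + 1) then i + 1 else 0
  | 0 => rfl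
  | k + 1 => by
    rw [sf, sf_eq n k, Finset.sum_range_succ]
    congr 1
    by_cases h1 : (k + 1) ∣ n
    · by_cases h2 : 3 ∣ (k + 1)
      · rw [if_neg (fun h => h.2 h2)]
        have : Nat.beq ((k + 1) % 3) 0 = true := by rw [Nat.mod_eq_zero_of_dvd h2]; rfl
        rw [this, Bool.not_true, Bool.and_false, cond_false]
      · rw [if_pos ⟨h1, h2⟩]
        have e1 : Nat.beq (n % (k + 1)) 0 = true := by rw [Nat.mod_eq_zero_of_dvd h1]; rfl
        have e2 : Nat.beq ((k + 1) % 3) 0 = false := by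
          rw [Bool.eq_false_iff]
          intro hc
          exact h2 (Nat.dvd_of_mod_eq_zero (Nat.eq_of_beq_eq_true hc))
        rw [e1, e2, Bool.not_false, Bool.and_true, cond_true]
    · rw [if_neg (fun h => h1 h.1)]
      have e1 : Nat.beq (n % (k + 1)) 0 = false := by
        rw [Bool.eq_false_iff]
        intro hc
        exact h1 (Nat.dvd_of_mod_eq_zero (Nat.eq_of_beq_eq_true hc))
      rw [e1, Bool.false_and, cond_false]

theorem sg_eq_sf (n : ℕ) : sg (n + 1) = sf (n + 1) (n + 1) := by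
  rw [sf_eq, sg, Finset.sum_filter, Nat.divisors, Finset.sum_filter,
    Finset.sum_Ico_eq_sum_range]
  refine Finset.sum_congr (by congr 1) fun i _ => ?_
  rw [add_comm 1 i]
  by_cases h1 : (i + 1) ∣ (n + 1)
  · by_cases h2 : 3 ∣ (i + 1)
    · simp [h1, h2]
    · simp [h1, h2]
  · simp [h1]

/-- the check of the table -/
def tck : ℕ → List ℕ → Bool
  | _, [] => true
  | i, a :: l => Nat.beq a (sf (i + 1) (i + 1)) && tck (i + 1) l

theorem tab_of_tck : ∀ (l : List ℕ) (i : ℕ), tck i l = true → Tab i l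
  | [], _, _ => trivial
  | a :: l, i, h => by
    rw [tck, Bool.and_eq_true] at h
    refine ⟨?_, tab_of_tck l (i + 1) h.2⟩
    rw [sg_eq_sf]
    exact Nat.eq_of_beq_eq_true h.1

theorem tck_sgl : tck 0 sgl = true := by decide +kernel

theorem tab_sgl : Tab 0 sgl := tab_of_tck _ _ tck_sgl

theorem tab_tail : Tab 1 sgl.tail := by
  have h := tab_sgl
  unfold sgl at h ⊢
  exact h.2

theorem sgl_length : sgl.length = 570 := by decide +kernel

theorem sg_values : sg 1 = 1 ∧ sg 2 = 3 ∧ sg 3 = 1 ∧ sg 4 = 7 ∧ sg 5 = 6 := by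
  refine ⟨?_, ?_, ?_, ?_, ?_⟩ <;> rw [sg_eq_sf] <;> decide +kernel

theorem c0 (d : ℝ) : c d 0 = 1 := by rw [c]

theorem c1 (d : ℝ) : c d 1 = -d := by
  rw [c_succ]
  simp only [Finset.sum_range_succ, Finset.sum_range_zero]
  norm_num [c0, sg_values.1]

theorem c2 (d : ℝ) : c d 2 = d * (d - 3) / 2 := by
  rw [c_succ]
  simp only [Finset.sum_range_succ, Finset.sum_range_zero]
  norm_num [c0, c1, sg_values.1, sg_values.2.1]
  ring

theorem c3 (d : ℝ) : c d 3 = -d * (d ^ 2 - 9 * d + 2) / 6 := by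
  rw [c_succ]
  simp only [Finset.sum_range_succ, Finset.sum_range_zero]
  norm_num [c0, c1, c2, sg_values.1, sg_values.2.1, sg_values.2.2.1]
  ring

theorem c4 (d : ℝ) : c d 4 = d * (d ^ 3 - 18 * d ^ 2 + 35 * d - 42) / 24 := by
  rw [c_succ]
  simp only [Finset.sum_range_succ, Finset.sum_range_zero]
  norm_num [c0, c1, c2, c3, sg_values.1, sg_values.2.1, sg_values.2.2.1, sg_values.2.2.2.1]
  ring

theorem c5 (d : ℝ) : c d 5 = -d * (d - 1) * (d - 2) * (d - 3) * (d - 24) / 120 := by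
  rw [c_succ]
  simp only [Finset.sum_range_succ, Finset.sum_range_zero]
  norm_num [c0, c1, c2, c3, c4, sg_values.1, sg_values.2.1, sg_values.2.2.1, sg_values.2.2.2.1,
    sg_values.2.2.2.2]
  ring

theorem good_zero (d : ℝ) : Good d 0 := by
  refine ⟨fun _ => by rw [c0]; norm_num, fun h => absurd rfl h⟩

theorem good_three {d : ℝ} (h0 : 0 ≤ d) (h1 : d ^ 2 - 9 * d + 2 ≤ 0) : Good d 3 := by
  refine ⟨fun _ => ?_, fun h => absurd rfl h⟩
  rw [c3]
  have := mul_nonneg h0 (neg_nonneg.2 h1)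
  nlinarith

theorem good_five {d : ℝ} (h : (0 ≤ d ∧ d ≤ 1) ∨ (2 ≤ d ∧ d ≤ 3)) : Good d 5 := by
  refine ⟨fun h => absurd h (by norm_num), fun _ => ?_⟩
  rw [c5]
  have key : 0 ≤ d * (d - 1) * (d - 2) * (d - 3) * (d - 24) := by
    rcases h with ⟨h0, h1⟩ | ⟨h0, h1⟩
    · have a1 : 0 ≤ d * (1 - d) := mul_nonneg h0 (by linarith)
      have a2 : 0 ≤ (2 - d) * (3 - d) := mul_nonneg (by linarith) (by linarith)
      have a3 : 0 ≤ 24 - d := by linarith
      have := mul_nonneg (mul_nonneg a1 a2) a3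
      nlinarith
    · have a1 : 0 ≤ d * (d - 1) := mul_nonneg (by linarith) (by linarith)
      have a2 : 0 ≤ (d - 2) * (3 - d) := mul_nonneg (by linarith) (by linarith)
      have a3 : 0 ≤ 24 - d := by linarith
      have := mul_nonneg (mul_nonneg a1 a2) a3
      nlinarith
  nlinarith

/-- the initial packed number -/
def p0 : ℕ := W * (O + 2 ^ 110 + W * (O + W * (O + W * (O + W * (O + W * (O + W * (O + W * (O +
  W * (O + W * O)))))))))

theorem tm_zero (d h : ℝ) (j : ℕ) : TM d h j 10 p0 0 := by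
  refine ⟨0, [O + 2 ^ 110, O, O, O, O, O, O, O, O, O], rfl, ?_, ?_, ?_, ?_⟩
  · unfold O2; norm_num
  · have h1 : O + 2 ^ 110 < O2 := by unfold O O2; norm_num
    have h2 : O < O2 := by unfold O O2; norm_num
    intro t ht
    simp only [List.mem_cons, List.not_mem_nil, or_false] at ht
    rcases ht with rfl | rfl | rfl | rfl | rfl | rfl | rfl | rfl | rfl | rfl <;>
      first | exact h1 | exact h2
  · unfold p0
    simp only [ev_consN, ev_nil]
    ring
  · rw [c0]
    simp only [ev_cons, ev_nil, ge]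
    push_cast
    have : (2:ℝ) ^ 110 * 1 - ((O : ℝ) + 1298074214633706907132624082305024 + h * (O + h * (O + h * (O + h * (O + h * (O +
        h * (O + h * (O + h * (O + h * (O + h * 0))))))))) - O * (1 + h * (1 + h * (1 + h * (1 +
        h * (1 + h * (1 + h * (1 + h * (1 + h * (1 + h * (1 + h * 0))))))))))) = 0 := by ring
    rw [this]
    simp

theorem inst {A R N : ℕ} (hR : R ≤ 500)
    (hN : N ≤ 570) (hgo : go A R 1000 0 10 sgl N 0 O sgl.tail [p0] = true) {d : ℝ}
    (hd : |d - (A : ℝ) / 1000| ≤ (R : ℝ) / 1000) {n : ℕ} (hn : n ≤ N) (h3 : n ≠ 3) (h5 : n ≠ 5) :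
    Good d n := by
  rcases Nat.eq_zero_or_pos n with rfl | hn0
  · exact good_zero d
  have hR' : (R : ℝ) ≤ 500 := by exact_mod_cast hR
  have h := go_spec (A := A) (R := R) (q := 1000) (j := 0) (K := 10) (h := d - (A : ℝ) / 1000)
    (by norm_num) (by exact_mod_cast hd) (hd.trans (by linarith)) (Or.inl rfl)
    (by omega) (by norm_num) tab_sgl N 0 O sgl.tail [p0] hgo ⟨tm_zero _ _ _, trivial⟩ rfl
    (by rw [sgs, Finset.sum_range_one]; rw [sg_values.1, mul_one]) tab_tail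
    (by rw [sgl_length]; omega) n hn0 (by omega) h3 h5
  have e : ((A : ℝ) / (1000 : ℕ) + (d - (A : ℝ) / 1000)) = d := by push_cast; ring
  rwa [e] at h

theorem inst1 {A R N : ℕ} (hR : R ≤ 500)
    (hN : N ≤ 570) (hgo : go A R 1000 1 10 sgl N 0 O sgl.tail [p0] = true) {d : ℝ}
    (hd : |d - (A : ℝ) / 1000| ≤ (R : ℝ) / 1000) (hdA : d ≤ (A : ℝ) / 1000)
    {n : ℕ} (hn : n ≤ N) (h3 : n ≠ 3) (h5 : n ≠ 5) :
    Good d n := by
  rcases Nat.eq_zero_or_pos n with rfl | hn0
  · exact good_zero d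
  have hR' : (R : ℝ) ≤ 500 := by exact_mod_cast hR
  have h := go_spec (A := A) (R := R) (q := 1000) (j := 1) (K := 10) (h := d - (A : ℝ) / 1000)
    (by norm_num) (by exact_mod_cast hd) (hd.trans (by linarith)) (Or.inr rfl)
    (fun _ => by linarith) (by norm_num) tab_sgl N 0 O sgl.tail [p0] hgo
    ⟨tm_zero _ _ _, trivial⟩ rfl
    (by rw [sgs, Finset.sum_range_one]; rw [sg_values.1, mul_one]) tab_tail
    (by rw [sgl_length]; omega) n hn0 (by omega) h3 h5
  have e : ((A : ℝ) / (1000 : ℕ) + (d - (A : ℝ) / 1000)) = d := by push_cast; ring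
  rwa [e] at h

end Pool.Agent.T6.H43.BW.G
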