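import Pool.Agent.T6.H43.BW.G2

/-!
# The finite check: instances (1)
-/

set_option autoImplicit false
set_option maxRecDepth 100000

namespace Pool.Agent.T6.H43.BW.G

theorem g245 : go 245 20 1000 0 10 sgl 565 0 O sgl.tail [p0] = true := by decide +kernel

theorem g280 : go 280 20 1000 0 10 sgl 475 0 O sgl.tail [p0] = true := by decide +kernel

end Pool.Agent.T6.H43.BW.G
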