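import Pool.Agent.T6.H43.BW.A2
import Pool.Agent.T6.H43.BW.Cusp
import Pool.Agent.T6.H43.BW.Arc

/-!
# The decomposition of the coefficient integral
-/

set_option autoImplicit false

namespace Pool.Agent.T6.H43.BW

open Complex MeasureTheory Set
open scoped Real Interval ComplexConjugate

/-- the correction on the main arc -/
noncomputable def Lst (w : ℂ) : ℂ := L (vv w - 2 * π * I / 3)

theorem re_sub_shift (z : ℂ) : (z - 2 * π * I / 3).re = z.re := by
  have : (2 * (π : ℂ) * I / 3) = ((2 * π / 3 : ℝ) : ℂ) * I := by push_cast; ring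
  rw [this]; simp

theorem re_add_shift (z : ℂ) : (z + 2 * π * I / 3).re = z.re := by
  have : (2 * (π : ℂ) * I / 3) = ((2 * π / 3 : ℝ) : ℂ) * I := by push_cast; ring
  rw [this]; simp

theorem L_cusp {w : ℂ} (hw : 0 < w.re) :
    L (w + 2 * π * I / 3) = -(I * π / 18) - π ^ 2 / (27 * w) + w / 12 + Lst w := by
  rw [Lst, L_eq (by rw [re_add_shift]; exact hw), L_eq (by rw [re_sub_shift]; exact vv_re_pos hw)]
  exact g_cusp hw

/-- the integrand -/
noncomputable def fI (d : ℝ) (n : ℕ) (δ φ : ℝ) : ℂ :=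
  cexp (-(d : ℂ) * L (δ + φ * I) + n * (δ + φ * I))

/-- the exponent on the main arc -/
noncomputable def EE (d : ℝ) (n : ℕ) (w : ℂ) : ℂ :=
  I * (2 * π * n / 3 + π * d / 18) + (π ^ 2 * d / 27) / w + (n - d / 12) * w

/-- the error on the main arc -/
noncomputable def hI (d : ℝ) (n : ℕ) (w : ℂ) : ℂ :=
  cexp (EE d n w) * (cexp (-(d : ℂ) * Lst w) - 1)

theorem fI_main (d : ℝ) (n : ℕ) {δ : ℝ} (hδ : 0 < δ) (ψ : ℝ) :
    fI d n δ (ψ + 2 * π / 3) = cexp (EE d n (δ + ψ * I)) + hI d n (δ + ψ * I) := by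
  have hw : 0 < ((δ : ℂ) + ψ * I).re := by rw [re_path]; exact hδ
  have e1 : ((δ : ℂ) + ((ψ + 2 * π / 3 : ℝ) : ℂ) * I) = (δ + ψ * I) + 2 * π * I / 3 := by
    push_cast; ring
  rw [fI, e1, L_cusp hw, hI, mul_sub, mul_one, add_sub_cancel, ← Complex.exp_add]
  congr 1
  rw [EE]
  have hw0 : ((δ : ℂ) + ψ * I) ≠ 0 := by
    intro h
    rw [h] at hw
    simp at hw
  field_simp
  ring

theorem fI_neg (d : ℝ) (n : ℕ) (δ φ : ℝ) : fI d n δ (-φ) = conj (fI d n δ φ) := by
  unfold fI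
  rw [← Complex.exp_conj]
  congr 1
  have e : ((δ : ℂ) + ((-φ : ℝ) : ℂ) * I) = conj ((δ : ℂ) + φ * I) := by
    simp
  rw [e, L_conj]
  simp

theorem continuous_fI (d : ℝ) (n : ℕ) {δ : ℝ} (hδ : 0 < δ) : Continuous (fI d n δ) := by
  have := continuous_L_path hδ
  unfold fI
  fun_prop

theorem path_ne {δ : ℝ} (hδ : 0 < δ) (ψ : ℝ) : ((δ : ℂ) + ψ * I) ≠ 0 := by
  intro h
  have := re_path δ ψ
  rw [h] at this
  simp at this
  linarith

theorem continuous_EE (d : ℝ) (n : ℕ) {δ : ℝ} (hδ : 0 < δ) :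
    Continuous fun ψ : ℝ => cexp (EE d n (δ + ψ * I)) := by
  have h := fun ψ : ℝ => path_ne hδ ψ
  unfold EE
  fun_prop (disch := exact h _)

theorem continuous_hI (d : ℝ) (n : ℕ) {δ : ℝ} (hδ : 0 < δ) :
    Continuous fun ψ : ℝ => hI d n (δ + ψ * I) := by
  have h1 : (fun ψ : ℝ => hI d n (δ + ψ * I)) =
      fun ψ : ℝ => fI d n δ (ψ + 2 * π / 3) - cexp (EE d n (δ + ψ * I)) := by
    funext ψ
    rw [fI_main d n hδ ψ]
    ring
  rw [h1]
  exact ((continuous_fI d n hδ).comp (by fun_prop)).sub (continuous_EE d n hδ)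

/-- the integral over the minor arcs -/
noncomputable def restI (a : ℝ) (F : ℝ → ℂ) : ℂ :=
  (∫ φ in (-π)..(-(2 * π / 3) - a), F φ) + (∫ φ in (-(2 * π / 3) + a)..(2 * π / 3 - a), F φ) +
    ∫ φ in (2 * π / 3 + a)..π, F φ

theorem norm_restI_le {a E : ℝ} {F : ℝ → ℂ} (ha0 : 0 ≤ a) (ha : a ≤ π / 3)
    (h : ∀ φ : ℝ, |φ| ≤ π → a ≤ |(|φ| - 2 * π / 3)| → ‖F φ‖ ≤ E) :
    ‖restI a F‖ ≤ (2 * π - 4 * a) * E := by
  have hpi := Real.pi_pos
  have h1 : ‖∫ φ in (-π)..(-(2 * π / 3) - a), F φ‖ ≤ E * |(-(2 * π / 3) - a) - (-π)| := by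
    refine intervalIntegral.norm_integral_le_of_norm_le_const fun φ hφ => ?_
    rw [uIoc_of_le (by linarith)] at hφ
    have h0 : |φ| = -φ := abs_of_nonpos (by linarith [hφ.2])
    refine h φ (by rw [h0]; linarith [hφ.1]) ?_
    rw [h0, abs_of_nonneg] <;> linarith [hφ.2]
  have h2 : ‖∫ φ in (-(2 * π / 3) + a)..(2 * π / 3 - a), F φ‖ ≤
      E * |(2 * π / 3 - a) - (-(2 * π / 3) + a)| := by
    refine intervalIntegral.norm_integral_le_of_norm_le_const fun φ hφ => ?_
    rw [uIoc_of_le (by linarith)] at hφ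
    have h0 : |φ| ≤ 2 * π / 3 - a := abs_le.2 ⟨by linarith [hφ.1], hφ.2⟩
    refine h φ (by linarith) ?_
    rw [abs_of_nonpos] <;> linarith
  have h3 : ‖∫ φ in (2 * π / 3 + a)..π, F φ‖ ≤ E * |π - (2 * π / 3 + a)| := by
    refine intervalIntegral.norm_integral_le_of_norm_le_const fun φ hφ => ?_
    rw [uIoc_of_le (by linarith)] at hφ
    have h0 : |φ| = φ := abs_of_nonneg (by linarith [hφ.1])
    refine h φ (by rw [h0]; exact hφ.2) ?_
    rw [h0, abs_of_nonneg] <;> linarith [hφ.1]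
  rw [abs_of_nonneg (by linarith)] at h1 h2 h3
  unfold restI
  refine (norm_add₃_le).trans ?_
  linarith

theorem restI_sub {a : ℝ} {F G : ℝ → ℂ} (hF : Continuous F) (hG : Continuous G) :
    restI a F - restI a G = restI a (fun φ => F φ - G φ) := by
  unfold restI
  rw [intervalIntegral.integral_sub (hF.intervalIntegrable _ _) (hG.intervalIntegrable _ _),
    intervalIntegral.integral_sub (hF.intervalIntegrable _ _) (hG.intervalIntegrable _ _),
    intervalIntegral.integral_sub (hF.intervalIntegrable _ _) (hG.intervalIntegrable _ _)]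
  ring

/-- the main integral -/
noncomputable def PP (d : ℝ) (n : ℕ) (δ : ℝ) : ℂ :=
  ∫ ψ in (-(√3 * δ))..(√3 * δ), cexp (EE d n (δ + ψ * I))

/-- the error integral -/
noncomputable def HH (d : ℝ) (n : ℕ) (δ : ℝ) : ℂ :=
  ∫ ψ in (-(√3 * δ))..(√3 * δ), hI d n (δ + ψ * I)

theorem integral_conj' {a b : ℝ} (f : ℝ → ℂ) :
    ∫ x in a..b, conj (f x) = conj (∫ x in a..b, f x) :=
  intervalIntegral.intervalIntegral_eq_integral_uIoc (fun x => conj (f x)) a b volume ▸ by
    rw [intervalIntegral.intervalIntegral_eq_integral_uIoc f a b volume, integral_conj]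
    split_ifs <;> simp

theorem split (d : ℝ) (n : ℕ) {δ : ℝ} (hδ : 0 < δ) :
    2 * π * (c d n : ℂ) = restI (√3 * δ) (fI d n δ) + (PP d n δ + conj (PP d n δ)) +
      (HH d n δ + conj (HH d n δ)) := by
  have hc := continuous_fI d n hδ
  have hi : ∀ a b : ℝ, IntervalIntegrable (fI d n δ) volume a b := fun a b =>
    hc.intervalIntegrable a b
  have h0 := coeff_int d n hδ
  change 2 * π * (c d n : ℂ) = ∫ φ in (-π)..π, fI d n δ φ at h0
  set a := √3 * δ with ha
  have h1 : ∫ φ in (2 * π / 3 - a)..(2 * π / 3 + a), fI d n δ φ = PP d n δ + HH d n δ := by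
    have h2 := intervalIntegral.integral_comp_add_right (a := -a) (b := a) (fI d n δ) (2 * π / 3)
    rw [show -a + 2 * π / 3 = 2 * π / 3 - a by ring, show a + 2 * π / 3 = 2 * π / 3 + a by ring]
      at h2
    rw [← h2, intervalIntegral.integral_congr (fun ψ _ => fI_main d n hδ ψ),
      intervalIntegral.integral_add ((continuous_EE d n hδ).intervalIntegrable _ _)
        ((continuous_hI d n hδ).intervalIntegrable _ _)]
    rfl
  have h2 : ∫ φ in (-(2 * π / 3) - a)..(-(2 * π / 3) + a), fI d n δ φ =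
      conj (PP d n δ) + conj (HH d n δ) := by
    have h3 := intervalIntegral.integral_comp_neg (a := 2 * π / 3 - a) (b := 2 * π / 3 + a)
      (fI d n δ)
    rw [show -(2 * π / 3 + a) = -(2 * π / 3) - a by ring,
      show -(2 * π / 3 - a) = -(2 * π / 3) + a by ring] at h3
    rw [← h3, intervalIntegral.integral_congr (fun ψ _ => fI_neg d n δ ψ), integral_conj', h1,
      map_add]
  have h3 : ∫ φ in (-π)..π, fI d n δ φ =
      (∫ φ in (-π)..(-(2 * π / 3) - a), fI d n δ φ) +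
      (∫ φ in (-(2 * π / 3) - a)..(-(2 * π / 3) + a), fI d n δ φ) +
      (∫ φ in (-(2 * π / 3) + a)..(2 * π / 3 - a), fI d n δ φ) +
      (∫ φ in (2 * π / 3 - a)..(2 * π / 3 + a), fI d n δ φ) +
      ∫ φ in (2 * π / 3 + a)..π, fI d n δ φ := by
    rw [intervalIntegral.integral_add_adjacent_intervals (hi _ _) (hi _ _),
      intervalIntegral.integral_add_adjacent_intervals (hi _ _) (hi _ _),
      intervalIntegral.integral_add_adjacent_intervals (hi _ _) (hi _ _),
      intervalIntegral.integral_add_adjacent_intervals (hi _ _) (hi _ _)]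
  rw [h0, h3, h1, h2, restI]
  ring

end Pool.Agent.T6.H43.BW
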